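import Mathlib

/-!
Trigraphs, contractions, reduction sequences, bandwidth, reduced bandwidth, shallow minors,
the densities `∇_r` and graph classes.
-/

namespace Pool.Agent.Helper60.RedBw

/-- A trigraph: a vertex set with two disjoint edge sets, black and red. -/
structure Trigraph (V : Type) where
  /-- the black edges -/
  black : SimpleGraph V
  /-- the red edges -/
  red : SimpleGraph V
  /-- no pair is both black and red -/
  disj : ∀ u v, black.Adj u v → ¬ red.Adj u v

/-- Adjacency in a trigraph (by a black or a red edge). -/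
def Trigraph.Adj {V : Type} (T : Trigraph V) (u v : V) : Prop :=
  T.black.Adj u v ∨ T.red.Adj u v

/-- A graph is a trigraph with no red edges. -/
def Trigraph.ofGraph {V : Type} (G : SimpleGraph V) : Trigraph V where
  black := G
  red := ⊥
  disj := by intro u v _ h; exact h

/-- `T'` is obtained from `T` by contracting the two vertices `u ≠ v` into one new vertex; the
map `π` sends each vertex of `T` to its vertex in `T'` (so `π u = π v` is the new vertex, and
`π` is injective otherwise). For every other vertex `x`, the pair `π u, π x` is black if `xu` and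
`xv` are both black, absent if `x` is adjacent to neither `u` nor `v`, and red otherwise. All other
edges are unchanged. -/
structure IsContraction {V W : Type} (T : Trigraph V) (T' : Trigraph W) (u v : V) (π : V → W) :
    Prop where
  /-- the two contracted vertices are different -/
  ne : u ≠ v
  /-- every vertex of `T'` comes from `T` -/
  surj : Function.Surjective π
  /-- exactly `u` and `v` are identified -/
  fiber : ∀ x y, π x = π y ↔ (x = y ∨ (x = u ∧ y = v) ∨ (x = v ∧ y = u))
  /-- black edges at the new vertex -/
  black_new : ∀ x, x ≠ u → x ≠ v →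
    (T'.black.Adj (π u) (π x) ↔ T.black.Adj u x ∧ T.black.Adj v x)
  /-- non-edges at the new vertex -/
  absent_new : ∀ x, x ≠ u → x ≠ v → (¬ T'.Adj (π u) (π x) ↔ ¬ T.Adj u x ∧ ¬ T.Adj v x)
  /-- other black edges -/
  black_old : ∀ x y, x ≠ u → x ≠ v → y ≠ u → y ≠ v →
    (T'.black.Adj (π x) (π y) ↔ T.black.Adj x y)
  /-- other red edges -/
  red_old : ∀ x y, x ≠ u → x ≠ v → y ≠ u → y ≠ v →
    (T'.red.Adj (π x) (π y) ↔ T.red.Adj x y)

/-- The bandwidth of a finite graph: the minimum over all numberings `ℓ` of the vertices of the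
maximum of `|ℓ u - ℓ v|` over the edges `uv`. -/
noncomputable def bandwidth {V : Type} [Fintype V] (H : SimpleGraph V) : ℕ :=
  sInf {b : ℕ | ∃ ℓ : V ≃ Fin (Fintype.card V),
    ∀ u v, H.Adj u v → |((ℓ u : ℕ) : ℤ) - ((ℓ v : ℕ) : ℤ)| ≤ b}

/-- `ReducesWithin b V T`: the trigraph `T` on `V` has a reduction sequence (repeated contractions
down to one vertex) in which all red graphs, that of `T` included, have bandwidth at most `b`. -/
inductive ReducesWithin (b : ℕ) : (V : Type) → [Fintype V] → Trigraph V → Prop
  | last {V : Type} [Fintype V] (T : Trigraph V) (hV : Fintype.card V ≤ 1)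
      (hb : bandwidth T.red ≤ b) : ReducesWithin b V T
  | step {V W : Type} [Fintype V] [Fintype W] (T : Trigraph V) (T' : Trigraph W) (u v : V)
      (π : V → W) (hb : bandwidth T.red ≤ b) (hc : IsContraction T T' u v π)
      (hr : ReducesWithin b W T') : ReducesWithin b V T

/-- The reduced bandwidth of a finite graph: the minimum, over reduction sequences, of the maximum
bandwidth of a red graph in the sequence. -/
noncomputable def reducedBandwidth {V : Type} [Fintype V] (G : SimpleGraph V) : ℕ :=
  sInf {b : ℕ | ReducesWithin b V (Trigraph.ofGraph G)}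

/-- `H` is an `r`-shallow minor of `G`: there are pairwise disjoint branch sets `B w`, one for each
vertex `w` of `H`, each inducing a connected subgraph of radius at most `r` (there is a centre `c`
from which each vertex of `B w` is reached by a walk of length at most `r` inside `B w`), such that
adjacent vertices of `H` have branch sets joined by an edge of `G`. -/
def IsShallowMinor (r : ℕ) {W V : Type} (H : SimpleGraph W) (G : SimpleGraph V) : Prop :=
  ∃ B : W → Set V,
    (∀ w w', w ≠ w' → Disjoint (B w) (B w')) ∧
    (∀ w, ∃ c ∈ B w, ∀ x ∈ B w, ∃ p : G.Walk c x, p.length ≤ r ∧ ∀ y ∈ p.support, y ∈ B w) ∧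
    (∀ w w', H.Adj w w' → ∃ x ∈ B w, ∃ y ∈ B w', G.Adj x y)

/-- `∇_r(G)`: the maximum of `|E(H)| / |V(H)|` over the `r`-shallow minors `H` of `G`. -/
noncomputable def nabla (r : ℕ) {V : Type} (G : SimpleGraph V) : ℝ :=
  sSup {d : ℝ | ∃ (m : ℕ) (H : SimpleGraph (Fin m)), 0 < m ∧ IsShallowMinor r H G ∧
    d = (H.edgeSet.ncard : ℝ) / (m : ℝ)}

/-- A class of finite graphs (on the vertex sets `Fin n`). -/
def GraphClass : Type := ∀ n : ℕ, SimpleGraph (Fin n) → Prop

/-- A class is monotone if it is closed under taking subgraphs (and isomorphic copies). -/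
def GraphClass.IsMonotone (C : GraphClass) : Prop :=
  ∀ (m n : ℕ) (H : SimpleGraph (Fin m)) (G : SimpleGraph (Fin n)),
    C n G → H.IsContained G → C m H

/-- A class excludes a fixed complete bipartite subgraph. -/
def GraphClass.ExcludesBiclique (C : GraphClass) : Prop :=
  ∃ s t : ℕ, 1 ≤ s ∧ 1 ≤ t ∧ ∀ (n : ℕ) (G : SimpleGraph (Fin n)), C n G →
    ¬ (completeBipartiteGraph (Fin s) (Fin t)).IsContained G

/-- A class has bounded reduced bandwidth. -/
def GraphClass.BoundedReducedBandwidth (C : GraphClass) : Prop :=
  ∃ k : ℕ, ∀ (n : ℕ) (G : SimpleGraph (Fin n)), C n G → reducedBandwidth G ≤ k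

/-- A class has polynomial expansion. -/
def GraphClass.PolynomialExpansion (C : GraphClass) : Prop :=
  ∃ p : Polynomial ℝ, ∀ (n : ℕ) (G : SimpleGraph (Fin n)), C n G →
    ∀ r : ℕ, nabla r G ≤ p.eval (r : ℝ)

end Pool.Agent.Helper60.RedBw
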