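import Pool.Agent.Helper60.RedBw.Time

/-!
From the absence of large expanders to bounded density.
-/

namespace Pool.Agent.Helper60.RedBw

open Classical

set_option linter.unusedSectionVars false

/-! ### The weight function -/

/-- `w(x) = (n1/x)^(1/4)` -/
noncomputable def wt (n1 : ℝ) (x : ℕ) : ℝ := (n1 / x) ^ ((1 : ℝ) / 4)

theorem wt_pos {n1 : ℝ} (h : 0 < n1) {x : ℕ} (hx : 1 ≤ x) : 0 < wt n1 x := by
  unfold wt
  have : (0 : ℝ) < x := by exact_mod_cast hx
  positivity

theorem wt_pow {n1 : ℝ} (h : 0 < n1) {x : ℕ} (hx : 1 ≤ x) : wt n1 x ^ 4 = n1 / x := by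
  unfold wt
  have : (0 : ℝ) < x := by exact_mod_cast hx
  rw [← Real.rpow_natCast, ← Real.rpow_mul (by positivity)]
  norm_num

theorem wt_le {n1 : ℝ} (h : 0 < n1) {x y : ℕ} (hx : 1 ≤ x) (hxy : x ≤ y) :
    wt n1 y ≤ wt n1 x := by
  have hx0 : (0 : ℝ) < x := by exact_mod_cast hx
  have hxy' : (x : ℝ) ≤ y := by exact_mod_cast hxy
  refine le_of_pow_le_pow_left₀ (n := 4) (by norm_num) (wt_pos h hx).le ?_
  rw [wt_pow h hx, wt_pow h (hx.trans hxy)]
  exact div_le_div_of_nonneg_left h.le hx0 hxy'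

theorem wt_gain {n1 : ℝ} (h : 0 < n1) {x y : ℕ} (hx : 1 ≤ x) (hxy : 4 * x ≤ 3 * y) :
    107 / 100 * wt n1 y ≤ wt n1 x := by
  have hx0 : (0 : ℝ) < x := by exact_mod_cast hx
  have hy : 1 ≤ y := by omega
  have hy0 : (0 : ℝ) < y := by exact_mod_cast hy
  have hxy' : 4 * (x : ℝ) ≤ 3 * y := by exact_mod_cast hxy
  refine le_of_pow_le_pow_left₀ (n := 4) (by norm_num) (wt_pos h hx).le ?_
  rw [mul_pow, wt_pow h hx, wt_pow h hy, mul_div_assoc', div_le_div_iff₀ hy0 hx0]
  have h1 : (107 / 100 : ℝ) ^ 4 ≤ 4 / 3 := by norm_num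
  have h2 : (107 / 100 : ℝ) ^ 4 * n1 * x ≤ 4 / 3 * n1 * x := by
    have : 0 ≤ n1 * x := by positivity
    nlinarith
  have h3 : 4 / 3 * n1 * x ≤ n1 * y := by nlinarith
  linarith

/-- `h(x) = 3 - min(2, w(x))` -/
noncomputable def hh (n1 : ℝ) (x : ℕ) : ℝ := 3 - min 2 (wt n1 x)

theorem hh_ge {n1 : ℝ} (x : ℕ) : 1 ≤ hh n1 x := by
  unfold hh
  have := min_le_left 2 (wt n1 x)
  linarith

theorem hh_le {n1 : ℝ} (h : 0 < n1) {x : ℕ} (hx : 1 ≤ x) : hh n1 x ≤ 3 := by
  unfold hh
  have : 0 ≤ min 2 (wt n1 x) := le_min (by norm_num) (wt_pos h hx).le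
  linarith

theorem hh_mono {n1 : ℝ} (h : 0 < n1) {x y : ℕ} (hx : 1 ≤ x) (hxy : x ≤ y) :
    hh n1 x ≤ hh n1 y := by
  unfold hh
  have := min_le_min (le_refl (2 : ℝ)) (wt_le h hx hxy)
  linarith

theorem hh_gain {n1 : ℝ} (h : 0 < n1) {x y : ℕ} (hx : 1 ≤ x) (hxy : 4 * x ≤ 3 * y)
    (hw : wt n1 y ≤ 1) : hh n1 x ≤ hh n1 y - 7 / 100 * wt n1 y := by
  unfold hh
  have h1 := wt_gain h hx hxy
  have h2 : min 2 (wt n1 y) = wt n1 y := min_eq_right (by linarith)
  rw [h2]
  have h3 : 107 / 100 * wt n1 y ≤ min 2 (wt n1 x) := le_min (by linarith) h1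
  linarith

/-! ### Counting edges -/

variable {W : Type} [Fintype W] (H : SimpleGraph W)

/-- number of ordered adjacent pairs inside `S` -/
noncomputable def e2 (S : Finset W) : ℕ :=
  ((S ×ˢ S).filter (fun x => H.Adj x.1 x.2)).card

/-- the neighbours of `A` in `S` -/
noncomputable def NbIn (S A : Finset W) : Finset W :=
  S.filter (fun w => w ∉ A ∧ ∃ v ∈ A, H.Adj v w)

theorem e2_split (S A : Finset W) :
    e2 H S ≤ e2 H (A ∪ NbIn H S A) + e2 H (S \ A) := by
  unfold e2
  rw [← Nat.add_zero (_ + _)]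
  refine (Finset.card_le_card (t := ((A ∪ NbIn H S A) ×ˢ (A ∪ NbIn H S A)).filter
    (fun x => H.Adj x.1 x.2) ∪ ((S \ A) ×ˢ (S \ A)).filter (fun x => H.Adj x.1 x.2)) ?_).trans
    (Finset.card_union_le _ _)
  intro x hx
  rw [Finset.mem_filter, Finset.mem_product] at hx
  obtain ⟨⟨h1, h2⟩, h3⟩ := hx
  rw [Finset.mem_union, Finset.mem_filter, Finset.mem_filter, Finset.mem_product,
    Finset.mem_product]
  by_cases ha : x.1 ∈ A
  · left
    refine ⟨⟨Finset.mem_union_left _ ha, ?_⟩, h3⟩
    by_cases hb : x.2 ∈ A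
    · exact Finset.mem_union_left _ hb
    · apply Finset.mem_union_right
      rw [NbIn, Finset.mem_filter]
      exact ⟨h2, hb, x.1, ha, h3⟩
  · by_cases hb : x.2 ∈ A
    · left
      refine ⟨⟨?_, Finset.mem_union_left _ hb⟩, h3⟩
      apply Finset.mem_union_right
      rw [NbIn, Finset.mem_filter]
      exact ⟨h1, ha, x.2, hb, h3.symm⟩
    · right
      exact ⟨⟨Finset.mem_sdiff.2 ⟨h1, ha⟩, Finset.mem_sdiff.2 ⟨h2, hb⟩⟩, h3⟩

theorem e2_le (S : Finset W) : e2 H S ≤ S.card * S.card := by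
  unfold e2
  rw [← Finset.card_product]
  exact Finset.card_filter_le _ _

theorem e2_empty : e2 H ∅ = 0 := by simp [e2]

/-- expansion of an induced subgraph -/
def ExpandsIn (S : Finset W) (φ : ℝ) : Prop :=
  ∀ A : Finset W, A ⊆ S → 2 * A.card ≤ S.card → φ * A.card ≤ ((NbIn H S A).card : ℝ)

theorem density {A' : ℝ} (hA' : 0 < A')
    (hexp : ∀ (S : Finset W) (φ : ℝ), S.Nonempty → 0 < φ → φ ≤ 1 → ExpandsIn H S φ →
      φ ^ 4 * S.card < A') :
    (e2 H Finset.univ : ℝ) ≤ 3 * (50 ^ 4 * A') * Fintype.card W := by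
  rcases (Finset.univ : Finset W).eq_empty_or_nonempty with hE | hNE
  · rw [hE, e2_empty]
    have : (0 : ℝ) ≤ 3 * (50 ^ 4 * A') * Fintype.card W := by positivity
    simpa using this
  set n1 : ℝ := 50 ^ 4 * A' with hn1
  have hn1pos : 0 < n1 := by positivity
  -- the maximiser
  set F : Finset (Finset W) := (Finset.univ : Finset (Finset W)).filter (fun S => S.Nonempty)
    with hF
  have hFne : F.Nonempty := ⟨Finset.univ, by rw [hF, Finset.mem_filter]; exact ⟨Finset.mem_univ _, hNE⟩⟩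
  obtain ⟨S, hS, hmax⟩ := F.exists_max_image
    (fun S => (e2 H S : ℝ) / (S.card * hh n1 S.card)) hFne
  rw [hF, Finset.mem_filter] at hS
  have hSne : S.Nonempty := hS.2
  have hScard : 1 ≤ S.card := hSne.card_pos
  set L : ℝ := (e2 H S : ℝ) / (S.card * hh n1 S.card) with hL
  have hfpos : ∀ x : ℕ, 1 ≤ x → (0 : ℝ) < x * hh n1 x := by
    intro x hx
    have h1 : (0 : ℝ) < x := by exact_mod_cast hx
    have h2 := hh_ge (n1 := n1) x
    nlinarith
  have hle : ∀ A : Finset W, A.Nonempty → (e2 H A : ℝ) ≤ L * (A.card * hh n1 A.card) := by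
    intro A hA
    have h1 := hmax A (by rw [hF, Finset.mem_filter]; exact ⟨Finset.mem_univ _, hA⟩)
    rwa [div_le_iff₀ (hfpos _ hA.card_pos)] at h1
  have hSeq : (e2 H S : ℝ) = L * (S.card * hh n1 S.card) := by
    rw [hL, div_mul_cancel₀]
    exact (hfpos _ hScard).ne'
  have hL0 : 0 ≤ L := by
    rw [hL]
    exact div_nonneg (Nat.cast_nonneg _) (hfpos _ hScard).le
  -- the maximiser is small
  have hsmall : L = 0 ∨ (S.card : ℝ) < n1 := by
    by_contra hcon
    rw [not_or, not_lt] at hcon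
    obtain ⟨hLne, hbig⟩ := hcon
    have hLpos : 0 < L := lt_of_le_of_ne hL0 (Ne.symm hLne)
    set w := wt n1 S.card with hw
    have hwpos : 0 < w := wt_pos hn1pos hScard
    have hS0 : (0 : ℝ) < S.card := by exact_mod_cast hScard
    have hw4 : w ^ 4 = n1 / S.card := wt_pow hn1pos hScard
    have hw1 : w ≤ 1 := by
      refine le_of_pow_le_pow_left₀ (n := 4) (by norm_num) (by norm_num) ?_
      rw [hw4, one_pow, div_le_one hS0]
      exact hbig
    have hexpS : ExpandsIn H S (w / 50) := by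
      intro A hAS hA2
      by_contra hcon
      rw [not_le] at hcon
      have hAne : A.Nonempty := by
        rw [Finset.nonempty_iff_ne_empty]
        rintro rfl
        simp only [Finset.card_empty, Nat.cast_zero, mul_zero] at hcon
        have : (0 : ℝ) ≤ ((NbIn H S ∅).card : ℝ) := Nat.cast_nonneg _
        linarith
      have hA1 : 1 ≤ A.card := hAne.card_pos
      set a := A.card with ha
      set ν := (NbIn H S A).card with hν
      have hdisj : Disjoint A (NbIn H S A) := by
        rw [Finset.disjoint_left]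
        intro x h1 h2
        rw [NbIn, Finset.mem_filter] at h2
        exact h2.2.1 h1
      have hun : (A ∪ NbIn H S A).card = a + ν := Finset.card_union_of_disjoint hdisj
      have hsd : (S \ A).card = S.card - a := Finset.card_sdiff_of_subset hAS
      have hsdne : (S \ A).Nonempty := by
        rw [← Finset.card_pos, hsd]; omega
      have h1 := e2_split H S A
      have h2 := hle (A ∪ NbIn H S A) (hAne.mono Finset.subset_union_left)
      have h3 := hle (S \ A) hsdne
      rw [hun] at h2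
      rw [hsd] at h3
      have h1' : (e2 H S : ℝ) ≤ e2 H (A ∪ NbIn H S A) + e2 H (S \ A) := by exact_mod_cast h1
      rw [hSeq] at h1'
      have h4 : (S.card : ℝ) * hh n1 S.card ≤ ((a + ν : ℕ) : ℝ) * hh n1 (a + ν) +
          ((S.card - a : ℕ) : ℝ) * hh n1 (S.card - a) := by
        have h5 : L * (S.card * hh n1 S.card) ≤ L * (((a + ν : ℕ) : ℝ) * hh n1 (a + ν) +
          ((S.card - a : ℕ) : ℝ) * hh n1 (S.card - a)) := by
          rw [mul_add]; linarith
        exact le_of_mul_le_mul_left h5 hLpos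
      have ha0 : (0 : ℝ) < a := by exact_mod_cast hA1
      -- size of a + ν
      have h5 : 4 * (a + ν) ≤ 3 * S.card := by
        have h6 : (ν : ℝ) ≤ a / 2 := by nlinarith
        have h7 : 2 * (a : ℝ) ≤ S.card := by exact_mod_cast hA2
        have h8 : 4 * ((a : ℝ) + ν) ≤ 3 * S.card := by linarith
        exact_mod_cast h8
      have h6 := hh_gain hn1pos (x := a + ν) (y := S.card) (by omega) h5 hw1
      have h7 := hh_mono hn1pos (x := S.card - a) (y := S.card) (by omega) (by omega)
      have h8 := hh_le hn1pos hScard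
      have h8' := hh_ge (n1 := n1) S.card
      have h9 : (((S.card - a : ℕ)) : ℝ) = S.card - a := by
        rw [Nat.cast_sub]; omega
      rw [h9] at h4
      have h10 : ((a + ν : ℕ) : ℝ) = a + ν := by push_cast; ring
      rw [h10] at h4
      have h11 : ((S.card : ℝ) - a) * hh n1 (S.card - a) ≤ (S.card - a) * hh n1 S.card := by
        apply mul_le_mul_of_nonneg_left h7
        have : 2 * (a : ℝ) ≤ S.card := by exact_mod_cast hA2
        linarith
      have h12 : ((a : ℝ) + ν) * hh n1 (a + ν) ≤ (a + ν) * (hh n1 S.card - 7 / 100 * w) := by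
        apply mul_le_mul_of_nonneg_left h6
        exact add_nonneg ha0.le (Nat.cast_nonneg _)
      have h13 : ((a : ℝ) + ν) * (hh n1 S.card - 7 / 100 * w) <
          (a + w / 50 * a) * (hh n1 S.card - 7 / 100 * w) := by
        apply mul_lt_mul_of_pos_right
        · linarith
        · linarith
      have h14 : (a + w / 50 * a) * (hh n1 S.card - 7 / 100 * w) ≤ a * hh n1 S.card := by
        have h15 : (1 + w / 50) * (hh n1 S.card - 7 / 100 * w) ≤ hh n1 S.card := by
          nlinarith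
        have h16 : (a + w / 50 * a) * (hh n1 S.card - 7 / 100 * w) =
            a * ((1 + w / 50) * (hh n1 S.card - 7 / 100 * w)) := by ring
        rw [h16]
        exact mul_le_mul_of_nonneg_left h15 ha0.le
      linarith
    have h1 := hexp S (w / 50) hSne (by positivity) (by linarith) hexpS
    have h2 : (w / 50) ^ 4 * S.card = A' := by
      rw [div_pow, hw4, div_div, div_mul_eq_mul_div, div_eq_iff (by nlinarith), hn1]
      ring
    linarith
  -- conclusion
  have hLle : L ≤ n1 := by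
    rcases hsmall with h | h
    · rw [h]; exact hn1pos.le
    · rw [hL, div_le_iff₀ (hfpos _ hScard)]
      have h1 : (e2 H S : ℝ) ≤ S.card * S.card := by exact_mod_cast e2_le H S
      have h2 := hh_ge (n1 := n1) S.card
      have h3 : (0 : ℝ) < S.card := by exact_mod_cast hScard
      calc (e2 H S : ℝ) ≤ S.card * S.card := h1
        _ ≤ n1 * S.card := mul_le_mul_of_nonneg_right h.le h3.le
        _ ≤ n1 * (S.card * hh n1 S.card) := by
            apply mul_le_mul_of_nonneg_left _ hn1pos.le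
            nlinarith
  have hfin := hle Finset.univ hNE
  rw [Finset.card_univ] at hfin
  have hWpos : 1 ≤ Fintype.card W := by
    rw [← Finset.card_univ]; exact hNE.card_pos
  have h1 := hh_le hn1pos hWpos
  have h2 : (0 : ℝ) < Fintype.card W := by exact_mod_cast hWpos
  calc (e2 H Finset.univ : ℝ) ≤ L * (Fintype.card W * hh n1 (Fintype.card W)) := hfin
    _ ≤ n1 * (Fintype.card W * 3) := by
        apply mul_le_mul hLle _ (hfpos _ hWpos).le hn1pos.le
        exact mul_le_mul_of_nonneg_left h1 h2.le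
    _ = 3 * n1 * Fintype.card W := by ring

end Pool.Agent.Helper60.RedBw
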