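import Pool.Agent.Helper60.RedBw.Density

/-!
Linear expansion of biclique-free graphs of bounded reduced bandwidth.
-/

namespace Pool.Agent.Helper60.RedBw

open Classical

set_option linter.unusedSectionVars false

/-! ### Existence of reduction sequences -/

theorem ReducesWithin.mono {b b' : ℕ} (hb : b ≤ b') {V : Type} [iV : Fintype V] {T : Trigraph V}
    (h : ReducesWithin b V T) : ReducesWithin b' V T := by
  induction h with
  | last T hV h1 => exact ReducesWithin.last T hV (h1.trans hb)
  | step T T' u v π h1 h2 _ ih => exact ReducesWithin.step T T' u v π (h1.trans hb) h2 ih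

/-- the trigraph obtained by contracting `u` and `v` -/
def quot {V W : Type} (T : Trigraph V) (π : V → W) : Trigraph W where
  black :=
    { Adj := fun a b => a ≠ b ∧ ∀ x y, π x = a → π y = b → T.black.Adj x y
      symm := ⟨fun a b h => ⟨h.1.symm, fun x y hx hy => (h.2 y x hy hx).symm⟩⟩
      loopless := ⟨fun a h => h.1 rfl⟩ }
  red :=
    { Adj := fun a b => a ≠ b ∧ (¬ ∀ x y, π x = a → π y = b → T.black.Adj x y) ∧
        ∃ x y, π x = a ∧ π y = b ∧ T.Adj x y
      symm := ⟨fun a b h => ⟨h.1.symm, fun h' => h.2.1 (fun x y hx hy => (h' y x hy hx).symm), by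
        obtain ⟨x, y, hx, hy, hxy⟩ := h.2.2
        exact ⟨y, x, hy, hx, hxy.symm⟩⟩⟩
      loopless := ⟨fun a h => h.1 rfl⟩ }
  disj := fun a b h h' => h'.2.1 h.2

theorem quot_contraction {V W : Type} (T : Trigraph V) {u v : V} {π : V → W} (hne : u ≠ v)
    (hs : Function.Surjective π)
    (hf : ∀ x y, π x = π y ↔ (x = y ∨ (x = u ∧ y = v) ∨ (x = v ∧ y = u))) :
    IsContraction T (quot T π) u v π := by
  have f1 : ∀ x, π x = π u ↔ x = u ∨ x = v := by
    intro x; rw [hf]; tauto
  have f2 : ∀ x y, y ≠ u → y ≠ v → (π x = π y ↔ x = y) := by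
    intro x y h1 h2; rw [hf]; tauto
  refine ⟨hne, hs, hf, ?_, ?_, ?_, ?_⟩
  · intro x h1 h2
    have h3 : π u ≠ π x := by
      intro h; rw [f2 u x h1 h2] at h; exact h1 h.symm
    constructor
    · rintro ⟨-, h⟩
      exact ⟨h u x rfl rfl, h v x ((f1 v).2 (Or.inr rfl)) rfl⟩
    · rintro ⟨h4, h5⟩
      refine ⟨h3, ?_⟩
      intro a b ha hb
      rw [f1] at ha
      rw [f2 b x h1 h2] at hb
      subst hb
      rcases ha with rfl | rfl
      · exact h4
      · exact h5
  · intro x h1 h2
    have h3 : π u ≠ π x := by
      intro h; rw [f2 u x h1 h2] at h; exact h1 h.symm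
    have h4 : (quot T π).Adj (π u) (π x) ↔ (∃ a b, π a = π u ∧ π b = π x ∧ T.Adj a b) := by
      constructor
      · rintro (⟨-, h⟩ | ⟨-, -, h⟩)
        · exact ⟨u, x, rfl, rfl, Or.inl (h u x rfl rfl)⟩
        · exact h
      · intro h
        by_cases hb : ∀ a b, π a = π u → π b = π x → T.black.Adj a b
        · exact Or.inl ⟨h3, hb⟩
        · exact Or.inr ⟨h3, hb, h⟩
    rw [h4]
    constructor
    · intro h
      exact ⟨fun h5 => h ⟨u, x, rfl, rfl, h5⟩, fun h5 => h ⟨v, x, (f1 v).2 (Or.inr rfl), rfl, h5⟩⟩
    · rintro ⟨h5, h6⟩ ⟨a, b, ha, hb, hab⟩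
      rw [f1] at ha
      rw [f2 b x h1 h2] at hb
      subst hb
      rcases ha with rfl | rfl
      · exact h5 hab
      · exact h6 hab
  · intro x y h1 h2 h3 h4
    constructor
    · rintro ⟨-, h⟩; exact h x y rfl rfl
    · intro h
      refine ⟨?_, ?_⟩
      · intro he; rw [f2 x y h3 h4] at he; exact h.ne he
      · intro a b ha hb
        rw [f2 a x h1 h2] at ha
        rw [f2 b y h3 h4] at hb
        rw [ha, hb]; exact h
  · intro x y h1 h2 h3 h4
    constructor
    · rintro ⟨-, h5, a, b, ha, hb, hab⟩
      rw [f2 a x h1 h2] at ha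
      rw [f2 b y h3 h4] at hb
      rw [ha, hb] at hab
      rcases hab with h | h
      · exfalso
        apply h5
        intro a b ha hb
        rw [f2 a x h1 h2] at ha
        rw [f2 b y h3 h4] at hb
        rw [ha, hb]; exact h
      · exact h
    · intro h
      refine ⟨?_, ?_, x, y, rfl, rfl, Or.inr h⟩
      · intro he; rw [f2 x y h3 h4] at he; exact h.ne he
      · intro h5
        exact T.disj x y (h5 x y rfl rfl) h

theorem exists_reduction : ∀ (n : ℕ) (V : Type) [Fintype V] (T : Trigraph V),
    Fintype.card V = n → ∃ b, ReducesWithin b V T := by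
  intro n
  induction n with
  | zero =>
    intro V _ T hV
    exact ⟨bandwidth T.red, ReducesWithin.last T (by omega) le_rfl⟩
  | succ n ih =>
    intro V _ T hV
    by_cases h1 : Fintype.card V ≤ 1
    · exact ⟨bandwidth T.red, ReducesWithin.last T h1 le_rfl⟩
    · rw [not_le, Fintype.one_lt_card_iff] at h1
      obtain ⟨u, v, huv⟩ := h1
      set π : V → {x : V // x ≠ v} := fun x => if h : x = v then ⟨u, huv⟩ else ⟨x, h⟩ with hπ
      have hval : ∀ x, ((π x : {x : V // x ≠ v}) : V) = if x = v then u else x := by
        intro x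
        simp only [hπ]
        split_ifs <;> rfl
      have hcard : Fintype.card {x : V // x ≠ v} = n := by
        have := Fintype.card_subtype_compl (fun x : V => x = v)
        have h2 : Fintype.card {x : V // x = v} = 1 := Fintype.card_subtype_eq v
        change Fintype.card {x : V // ¬ x = v} = n
        omega
      have hc : IsContraction T (quot T π) u v π := by
        apply quot_contraction T huv
        · intro y
          refine ⟨y.1, ?_⟩
          apply Subtype.ext
          rw [hval, if_neg y.2]
        · intro x y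
          rw [← Subtype.coe_inj, hval, hval]
          split_ifs with h2 h3 h3
          · subst h2; subst h3; simp
          · subst h2
            constructor
            · intro h; right; right; exact ⟨rfl, h.symm⟩
            · rintro (h | ⟨h, h'⟩ | ⟨-, h⟩)
              · exact absurd h.symm h3
              · exact absurd h'.symm (by intro h''; exact h3 h''.symm)
              · exact h.symm
          · subst h3
            constructor
            · intro h; right; left; exact ⟨h, rfl⟩
            · rintro (h | ⟨h, -⟩ | ⟨h, h'⟩)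
              · exact absurd h h2
              · exact h
              · exact absurd h h2
          · constructor
            · intro h; left; exact h
            · rintro (h | ⟨-, h⟩ | ⟨h, -⟩)
              · exact h
              · exact absurd h h3
              · exact absurd h h2
      obtain ⟨b, hb⟩ := ih {x : V // x ≠ v} (quot T π) hcard
      refine ⟨max b (bandwidth T.red), ?_⟩
      exact ReducesWithin.step T (quot T π) u v π (le_max_right _ _) hc
        (hb.mono (le_max_left _ _))

theorem reducedBandwidth_spec {V : Type} [Fintype V] (G : SimpleGraph V) {k : ℕ} :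
    reducedBandwidth G ≤ k ↔ ReducesWithin k V (Trigraph.ofGraph G) := by
  have hne : {b : ℕ | ReducesWithin b V (Trigraph.ofGraph G)}.Nonempty :=
    exists_reduction _ V _ rfl
  constructor
  · intro h
    exact ReducesWithin.mono h (Nat.sInf_mem hne)
  · intro h
    exact Nat.sInf_le h

/-! ### Bicliques -/

theorem freeKtt_of {V : Type} [Fintype V] {G : SimpleGraph V} {s t : ℕ}
    (h : ¬ (completeBipartiteGraph (Fin s) (Fin t)).IsContained G) :
    FreeKtt G (max (max s t) 2) := by
  intro A B hA hB hAB
  apply h
  have hA' : s ≤ A.card := (le_max_left _ _).trans ((le_max_left _ _).trans hA)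
  have hB' : t ≤ B.card := (le_max_right _ _).trans ((le_max_left _ _).trans hB)
  obtain ⟨A', hA'A, hAc⟩ := Finset.exists_subset_card_eq hA'
  obtain ⟨B', hB'B, hBc⟩ := Finset.exists_subset_card_eq hB'
  let eA : A' ≃ Fin s := A'.equivFinOfCardEq hAc
  let eB : B' ≃ Fin t := B'.equivFinOfCardEq hBc
  let f : Fin s ⊕ Fin t → V := Sum.elim (fun i => (eA.symm i : V)) (fun j => (eB.symm j : V))
  have hf : ∀ i j, G.Adj (f (Sum.inl i)) (f (Sum.inr j)) := by
    intro i j
    exact hAB _ (hA'A (eA.symm i).2) _ (hB'B (eB.symm j).2)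
  refine ⟨⟨⟨f, ?_⟩, ?_⟩⟩
  · intro x y hxy
    rcases x with i | i <;> rcases y with j | j
    · simp [completeBipartiteGraph] at hxy
    · exact hf i j
    · exact (hf j i).symm
    · simp [completeBipartiteGraph] at hxy
  · intro x y hxy
    change f x = f y at hxy
    rcases x with i | i <;> rcases y with j | j
    · have : eA.symm i = eA.symm j := Subtype.ext hxy
      rw [eA.symm.injective this]
    · exact absurd hxy (hf i j).ne
    · exact absurd hxy.symm (hf j i).ne
    · have : eB.symm i = eB.symm j := Subtype.ext hxy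
      rw [eB.symm.injective this]

/-! ### Edges -/

theorem e2_eq {W : Type} [Fintype W] (H : SimpleGraph W) :
    e2 H Finset.univ = 2 * H.edgeSet.ncard := by
  have h1 : e2 H Finset.univ = ∑ v : W, H.degree v := by
    unfold e2
    rw [Finset.univ_product_univ, Finset.card_filter, ← Finset.univ_product_univ,
      Finset.sum_product]
    apply Finset.sum_congr rfl
    intro v _
    rw [← Finset.card_filter, ← SimpleGraph.card_neighborFinset_eq_degree]
    congr 1
    ext w
    simp
  rw [h1, SimpleGraph.sum_degrees_eq_twice_card_edges]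
  congr 1
  rw [← SimpleGraph.coe_edgeFinset, Set.ncard_coe_finset]

theorem shallow_density {V : Type} [Fintype V] {G : SimpleGraph V} {t k : ℕ} (ht : 2 ≤ t)
    (hk : 1 ≤ k) (hfree : FreeKtt G t) (hG : ReducesWithin k V (Trigraph.ofGraph G)) {r : ℕ}
    {W : Type} [Fintype W] {H : SimpleGraph W} (hH : IsShallowMinor r H G) :
    (H.edgeSet.ncard : ℝ) ≤
      3 * 50 ^ 4 * (constA k t ((2 * k + 2) * t) : ℝ) * (r + 1) * Fintype.card W := by
  set A' : ℝ := constA k t ((2 * k + 2) * t) * (r + 1) with hA'
  have hA0 : 0 < A' := by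
    have : 0 < constA k t ((2 * k + 2) * t) := by unfold constA; omega
    have h1 : (0 : ℝ) < constA k t ((2 * k + 2) * t) := by exact_mod_cast this
    positivity
  have hd := density H hA0 (by
    intro S φ hS hφ hφ1 hexp
    have hsub : IsShallowMinor r (H.induce (S : Set W)) G := by
      obtain ⟨B, b1, b2, b3⟩ := hH
      refine ⟨fun w => B w.1, ?_, fun w => b2 w.1, ?_⟩
      · intro w w' hne
        exact b1 _ _ (fun h => hne (Subtype.ext h))
      · intro w w' hadj
        exact b3 _ _ hadj
    have hE : Expands (H.induce (S : Set W)) φ := by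
      intro A hA
      have hcS : Fintype.card (S : Set W) = S.card := by simp
      rw [hcS] at hA
      have h1 := hexp (A.map (Function.Embedding.subtype _)) (by
        intro x hx
        rw [Finset.mem_map] at hx
        obtain ⟨y, -, rfl⟩ := hx
        exact y.2) (by rw [Finset.card_map]; exact hA)
      rw [Finset.card_map] at h1
      refine h1.trans ?_
      have h2 : (NbIn H S (A.map (Function.Embedding.subtype _))).card ≤
          (Nb (H.induce (S : Set W)) A).card := by
        rw [← Finset.card_map (Function.Embedding.subtype _)]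
        apply Finset.card_le_card
        intro x hx
        rw [NbIn, Finset.mem_filter] at hx
        obtain ⟨h3, h4, v, hv, hvx⟩ := hx
        rw [Finset.mem_map] at hv ⊢
        obtain ⟨v', hv', rfl⟩ := hv
        refine ⟨⟨x, h3⟩, ?_, rfl⟩
        rw [mem_Nb]
        refine ⟨?_, v', hv', hvx⟩
        intro h5
        apply h4
        rw [Finset.mem_map]
        exact ⟨⟨x, h3⟩, h5, rfl⟩
      exact_mod_cast h2
    have h3 := no_expander (V := V) ht hk hfree hG hsub hφ hφ1 hE
    have hcS : Fintype.card (S : Set W) = S.card := by simp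
    rw [hcS] at h3
    exact h3)
  rw [e2_eq] at hd
  push_cast at hd
  have h0 : (0 : ℝ) ≤ A' * Fintype.card W := by positivity
  calc (H.edgeSet.ncard : ℝ) ≤ 2 * H.edgeSet.ncard := by
        have : (0 : ℝ) ≤ H.edgeSet.ncard := by positivity
        linarith
    _ ≤ _ := hd
    _ = _ := by rw [hA']; ring

/-- **Main theorem.** Biclique-free graphs of bounded reduced bandwidth have linear expansion. -/
theorem linear_expansion (s t k : ℕ) : ∃ c : ℕ, ∀ (V : Type) [Fintype V] (G : SimpleGraph V),
    ¬ (completeBipartiteGraph (Fin s) (Fin t)).IsContained G → reducedBandwidth G ≤ k →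
      ∀ r : ℕ, nabla r G ≤ c * (r + 1) ∧
        ∀ (m : ℕ) (H : SimpleGraph (Fin m)), IsShallowMinor r H G →
          (H.edgeSet.ncard : ℝ) ≤ c * (r + 1) * m := by
  set T := max (max s t) 2 with hT
  set K := max k 1 with hK
  refine ⟨3 * 50 ^ 4 * constA K T ((2 * K + 2) * T), ?_⟩
  intro V _ G hfree hbw r
  have hfree' : FreeKtt G T := freeKtt_of hfree
  have hG : ReducesWithin K V (Trigraph.ofGraph G) :=
    ((reducedBandwidth_spec G).1 hbw).mono (le_max_left _ _)
  have h2 : ((3 * 50 ^ 4 * constA K T ((2 * K + 2) * T) : ℕ) : ℝ) =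
      3 * 50 ^ 4 * (constA K T ((2 * K + 2) * T) : ℝ) := by push_cast; ring
  have key : ∀ (m : ℕ) (H : SimpleGraph (Fin m)), IsShallowMinor r H G →
      (H.edgeSet.ncard : ℝ) ≤
        ((3 * 50 ^ 4 * constA K T ((2 * K + 2) * T) : ℕ) : ℝ) * (r + 1) * m := by
    intro m H hH
    have := shallow_density (le_max_right _ _) (le_max_right _ _) hfree' hG hH
    rw [Fintype.card_fin] at this
    rw [h2]
    exact this
  refine ⟨?_, key⟩
  have hc : (0 : ℝ) ≤ ((3 * 50 ^ 4 * constA K T ((2 * K + 2) * T) : ℕ) : ℝ) * (r + 1) := by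
    positivity
  apply Real.sSup_le _ hc
  rintro d ⟨m, H, hm, hH, rfl⟩
  have hm0 : (0 : ℝ) < m := by exact_mod_cast hm
  rw [div_le_iff₀ hm0]
  exact key m H hH

end Pool.Agent.Helper60.RedBw
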