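import Pool.Agent.Helper60.RedBw.Static

/-!
The main inequality of the static part.
-/

namespace Pool.Agent.Helper60.RedBw

open Classical

set_option linter.unusedSectionVars false

variable {V W : Type} [Fintype V] [Fintype W]
variable {G : SimpleGraph V} {H : SimpleGraph W} {B : W → Set V} {U : Set V}
    {p : V → ℤ} {k r c0 : ℕ} {m : ℤ}

/-- vertex expansion -/
def Expands (H : SimpleGraph W) (φ : ℝ) : Prop :=
  ∀ A : Finset W, 2 * A.card ≤ Fintype.card W → φ * A.card ≤ ((Nb H A).card : ℝ)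

/-- dichotomy at a light position -/
theorem Static.light (S : Static G H B U p k r c0 m) {φ C q0 : ℝ} (hφ : 0 < φ)
    (hexp : Expands H φ) (hq : (((PP B U)ᶜ : Finset W).card : ℝ) ≤ q0) {j : ℤ}
    (hj : ((Wd B U p k j).card : ℝ) ≤ C) :
    ((Lf B U p j).card : ℝ) ≤ (C + q0) / φ ∨ ((Rt B U p k j).card : ℝ) ≤ (C + q0) / φ := by
  have hsum : (Lf B U p j).card + (Rt B U p k j).card ≤ Fintype.card W := by
    rw [← Finset.card_union_of_disjoint (S.disj_LR j)]
    exact Finset.card_le_univ _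
  have hcard : ∀ A : Finset W, A ⊆ Wd B U p k j ∪ (PP B U)ᶜ → (A.card : ℝ) ≤ C + q0 := by
    intro A hA
    have h1 : A.card ≤ (Wd B U p k j).card + ((PP B U)ᶜ : Finset W).card :=
      (Finset.card_le_card hA).trans (Finset.card_union_le _ _)
    have h2 : (A.card : ℝ) ≤ (Wd B U p k j).card + ((PP B U)ᶜ : Finset W).card := by
      exact_mod_cast h1
    linarith
  rcases Nat.le_total (Lf B U p j).card (Rt B U p k j).card with h | h
  · left
    have h1 := hexp (Lf B U p j) (by omega)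
    have h2 := hcard _ (S.nb_L j)
    rw [le_div_iff₀ hφ]
    linarith
  · right
    have h1 := hexp (Rt B U p k j) (by omega)
    have h2 := hcard _ (S.nb_R j)
    rw [le_div_iff₀ hφ]
    linarith

theorem Static.main (S : Static G H B U p k r c0 m) {φ C q0 : ℝ} (hφ : 0 < φ) (hφ1 : φ ≤ 1)
    (hC : 0 < C) (hexp : Expands H φ) (hm : 0 ≤ m)
    (hq : (((PP B U)ᶜ : Finset W).card : ℝ) ≤ q0)
    (h1 : q0 + 2 * ((C + q0) / φ) + 2 * C ≤ (Fintype.card W : ℝ) / 2)
    (h2 : (C + q0) / φ < Fintype.card W - q0) :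
    φ * (((PP B U)ᶜ : Finset W).card : ℝ) ≤ 2 * (2 * C + 2 * k * ((4 * k * r + 1) * c0) +
      (1 + Fintype.card W * (k * (2 * r + 1)) / C) * c0) := by
  set n := Fintype.card W with hn
  set β := (C + q0) / φ with hβ
  have hβ0 : 0 ≤ β := by
    have : (0 : ℝ) ≤ q0 := le_trans (by positivity) hq
    positivity
  -- the set of light positions
  set Lt : Finset ℤ := (Finset.Icc (-(k : ℤ)) m).filter (fun j => ((Wd B U p k j).card : ℝ) ≤ C)
    with hLt
  have hPcard : (PP B U).card + ((PP B U)ᶜ : Finset W).card = n := by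
    rw [Finset.card_compl]
    have := Finset.card_le_univ (PP B U)
    omega
  have hPcard' : ((PP B U).card : ℝ) + (((PP B U)ᶜ : Finset W).card : ℝ) = n := by
    exact_mod_cast hPcard
  -- left end
  have hW0 : Wd B U p k (-(k : ℤ)) = ∅ := by
    rw [Finset.eq_empty_iff_forall_notMem]
    intro w hw
    rw [mem_Wd] at hw
    obtain ⟨-, x, -, -, hx⟩ := hw
    have := S.pos0 x
    omega
  have hL0 : Lf B U p (-(k : ℤ)) = ∅ := by
    rw [Finset.eq_empty_iff_forall_notMem]
    intro w hw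
    rw [mem_Lf] at hw
    obtain ⟨c, hc, -⟩ := S.cen w
    have := hw.2 c hc
    have := S.pos0 c
    omega
  -- right end
  have hWm : Wd B U p k m = ∅ := by
    rw [Finset.eq_empty_iff_forall_notMem]
    intro w hw
    rw [mem_Wd] at hw
    obtain ⟨-, x, -, hx, -⟩ := hw
    have := S.posm x
    omega
  have hLm : Lf B U p m = PP B U := by
    ext w
    rw [mem_Lf, mem_PP]
    exact ⟨fun h => h.1, fun h => ⟨h, fun x _ => S.posm x⟩⟩
  have hkm : -(k : ℤ) ∈ Lt := by
    rw [hLt, Finset.mem_filter, Finset.mem_Icc, hW0]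
    exact ⟨⟨le_rfl, by omega⟩, by simpa using hC.le⟩
  have hmm : m ∈ Lt := by
    rw [hLt, Finset.mem_filter, Finset.mem_Icc, hWm]
    exact ⟨⟨by omega, le_rfl⟩, by simpa using hC.le⟩
  -- j1
  set A1 := Lt.filter (fun j => ((Lf B U p j).card : ℝ) ≤ β) with hA1
  have hA1n : A1.Nonempty := ⟨-(k : ℤ), by
    rw [hA1, Finset.mem_filter, hL0]
    exact ⟨hkm, by simpa using hβ0⟩⟩
  obtain ⟨j1, hj1, hj1max⟩ := A1.exists_max_image id hA1n
  rw [hA1, Finset.mem_filter] at hj1
  have hj1m : j1 < m := by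
    have h3 : j1 ≤ m := by
      have := hj1.1
      rw [hLt, Finset.mem_filter, Finset.mem_Icc] at this
      exact this.1.2
    rcases lt_or_eq_of_le h3 with h4 | h4
    · exact h4
    · exfalso
      have h5 := hj1.2
      rw [h4, hLm] at h5
      linarith
  -- j2
  set A2 := Lt.filter (fun j => j1 < j) with hA2
  have hA2n : A2.Nonempty := ⟨m, by
    rw [hA2, Finset.mem_filter]
    exact ⟨hmm, hj1m⟩⟩
  obtain ⟨j2, hj2, hj2min⟩ := A2.exists_min_image id hA2n
  rw [hA2, Finset.mem_filter] at hj2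
  have hL2 : β < ((Lf B U p j2).card : ℝ) := by
    by_contra hcon
    rw [not_lt] at hcon
    have h3 : j2 ∈ A1 := by
      rw [hA1, Finset.mem_filter]; exact ⟨hj2.1, hcon⟩
    have := hj1max j2 h3
    simp only [id] at this
    omega
  have hlt1 : ((Wd B U p k j1).card : ℝ) ≤ C := by
    have := hj1.1
    rw [hLt, Finset.mem_filter] at this
    exact this.2
  have hlt2 : ((Wd B U p k j2).card : ℝ) ≤ C := by
    have := hj2.1
    rw [hLt, Finset.mem_filter] at this
    exact this.2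
  have hR2 : ((Rt B U p k j2).card : ℝ) ≤ β := by
    rcases S.light hφ hexp hq hlt2 with h | h
    · exact absurd h (not_le.2 hL2)
    · exact h
  -- gap between j1 and j2
  have hgap : ((j2 - j1 : ℤ) : ℝ) ≤ 1 + n * (k * (2 * r + 1)) / C := by
    have h3 := S.sum_W (Finset.Ioo j1 j2)
    have h4 : ∀ j ∈ Finset.Ioo j1 j2, C ≤ ((Wd B U p k j).card : ℝ) := by
      intro j hj
      rw [Finset.mem_Ioo] at hj
      by_contra hcon
      rw [not_le] at hcon
      have h5 : j ∈ A2 := by
        rw [hA2, Finset.mem_filter, hLt, Finset.mem_filter, Finset.mem_Icc]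
        have h6 := hj1.1
        rw [hLt, Finset.mem_filter, Finset.mem_Icc] at h6
        have h7 := hj2.1
        rw [hLt, Finset.mem_filter, Finset.mem_Icc] at h7
        exact ⟨⟨⟨by omega, by omega⟩, hcon.le⟩, hj.1⟩
      have := hj2min j h5
      simp only [id] at this
      omega
    have h5 : ((Finset.Ioo j1 j2).card : ℝ) * C ≤ n * (k * (2 * r + 1)) := by
      have h6 : ((Finset.Ioo j1 j2).card : ℝ) * C ≤
          ∑ j ∈ Finset.Ioo j1 j2, ((Wd B U p k j).card : ℝ) := by
        rw [← nsmul_eq_mul]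
        exact Finset.card_nsmul_le_sum _ _ _ h4
      have h7 : (∑ j ∈ Finset.Ioo j1 j2, ((Wd B U p k j).card : ℝ)) ≤ n * (k * (2 * r + 1)) := by
        exact_mod_cast h3
      linarith
    rw [Int.card_Ioo] at h5
    have h6 : (((j2 - j1 - 1).toNat : ℕ) : ℝ) = ((j2 - j1 : ℤ) : ℝ) - 1 := by
      have : (((j2 - j1 - 1).toNat : ℕ) : ℤ) = j2 - j1 - 1 := Int.toNat_of_nonneg (by omega)
      have h8 : ((((j2 - j1 - 1).toNat : ℕ) : ℤ) : ℝ) = ((j2 - j1 - 1 : ℤ) : ℝ) := by rw [this]
      push_cast at h8 ⊢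
      linarith
    rw [h6] at h5
    rw [← sub_le_iff_le_add', le_div_iff₀ hC]
    exact h5
  -- the middle part
  set M := Rt B U p k j1 ∩ Lf B U p j2 with hM
  have hcover : PP B U ⊆ Lf B U p j1 ∪ Wd B U p k j1 ∪ (M ∪ (Wd B U p k j2 ∪ Rt B U p k j2)) := by
    intro w hw
    rw [mem_PP] at hw
    simp only [Finset.mem_union]
    rcases S.tri j1 hw with h | h | h
    · exact Or.inl (Or.inl h)
    · exact Or.inl (Or.inr h)
    · rcases S.tri j2 hw with h' | h' | h'
      · exact Or.inr (Or.inl (Finset.mem_inter.2 ⟨h, h'⟩))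
      · exact Or.inr (Or.inr (Or.inl h'))
      · exact Or.inr (Or.inr (Or.inr h'))
  have hcard : ((PP B U).card : ℝ) ≤ (Lf B U p j1).card + (Wd B U p k j1).card +
      (M.card + ((Wd B U p k j2).card + (Rt B U p k j2).card)) := by
    have h3 := Finset.card_le_card hcover
    have h4 := Finset.card_union_le (Lf B U p j1 ∪ Wd B U p k j1)
      (M ∪ (Wd B U p k j2 ∪ Rt B U p k j2))
    have h5 := Finset.card_union_le (Lf B U p j1) (Wd B U p k j1)
    have h6 := Finset.card_union_le M (Wd B U p k j2 ∪ Rt B U p k j2)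
    have h7 := Finset.card_union_le (Wd B U p k j2) (Rt B U p k j2)
    have : (PP B U).card ≤ (Lf B U p j1).card + (Wd B U p k j1).card +
      (M.card + ((Wd B U p k j2).card + (Rt B U p k j2).card)) := by omega
    exact_mod_cast this
  have hMbig : (n : ℝ) / 2 ≤ M.card := by
    have h3 := hj1.2
    linarith
  have hMbig' : n ≤ 2 * M.card := by
    have : (n : ℝ) ≤ 2 * M.card := by linarith
    exact_mod_cast this
  have hdisj : Disjoint ((PP B U)ᶜ : Finset W) M := by
    rw [Finset.disjoint_left]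
    intro w h3 h4
    rw [Finset.mem_compl, mem_PP] at h3
    rw [hM, Finset.mem_inter, mem_Rt] at h4
    exact h3 h4.1.1
  have hfin := compl_expand hφ hφ1 hexp hMbig' hdisj
  have hnb := S.nb_M (j1 := j1) (j2 := j2) hj2.2.le
  have hnb' : ((Nb H M).card : ℝ) ≤ (Wd B U p k j1).card + (Wd B U p k j2).card +
      2 * k * ((4 * k * r + 1) * c0) + ((j2 - j1).toNat : ℝ) * c0 := by
    exact_mod_cast hnb
  have htn : (((j2 - j1).toNat : ℕ) : ℝ) = ((j2 - j1 : ℤ) : ℝ) := by
    have : (((j2 - j1).toNat : ℕ) : ℤ) = j2 - j1 := Int.toNat_of_nonneg (by omega)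
    have h8 : ((((j2 - j1).toNat : ℕ) : ℤ) : ℝ) = ((j2 - j1 : ℤ) : ℝ) := by rw [this]
    push_cast at h8 ⊢
    linarith
  rw [htn] at hnb'
  have hc0 : (0 : ℝ) ≤ c0 := by positivity
  have := mul_le_mul_of_nonneg_right hgap hc0
  linarith

end Pool.Agent.Helper60.RedBw
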