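import Pool.Agent.Helper60.RedBw.Main

/-!
Numerical form of the static lemma.
-/

namespace Pool.Agent.Helper60.RedBw

open Classical

set_option linter.unusedSectionVars false

variable {V W : Type} [Fintype V] [Fintype W]
variable {G : SimpleGraph V} {H : SimpleGraph W} {B : W → Set V} {U : Set V}
    {p : V → ℤ} {k r c0 : ℕ} {m : ℤ}

/-- the constant -/
def constA (k t c0 : ℕ) : ℕ := 10000 * c0 * k * k + 22 * t + 1

theorem Static.no_expander (S : Static G H B U p k r c0 m) {φ : ℝ} {t : ℕ} (hφ : 0 < φ)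
    (hφ1 : φ ≤ 1) (hk : 1 ≤ k) (hc0 : 1 ≤ c0) (hexp : Expands H φ) (hm : 0 ≤ m)
    (hq : (((PP B U)ᶜ : Finset W).card : ℝ) ≤ φ * Fintype.card W / 8)
    (hq' : φ * Fintype.card W / 8 - 2 * t ≤ (((PP B U)ᶜ : Finset W).card : ℝ)) :
    φ ^ 4 * Fintype.card W < constA k t c0 * (r + 1) := by
  by_contra hcon
  rw [not_lt] at hcon
  set n : ℝ := (Fintype.card W : ℝ) with hn
  set q : ℝ := (((PP B U)ᶜ : Finset W).card : ℝ) with hqdef
  have hk' : (1 : ℝ) ≤ k := by exact_mod_cast hk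
  have hc' : (1 : ℝ) ≤ c0 := by exact_mod_cast hc0
  have hr : (0 : ℝ) ≤ r := by positivity
  have ht : (0 : ℝ) ≤ t := by positivity
  have hA : ((constA k t c0 : ℕ) : ℝ) = 10000 * c0 * k * k + 22 * t + 1 := by
    unfold constA; push_cast; ring
  rw [hA] at hcon
  set D : ℝ := c0 * k with hD
  have hD1 : 1 ≤ D := by rw [hD]; nlinarith
  have hDk : D ≤ c0 * k * k := by rw [hD]; nlinarith
  set E : ℝ := c0 * k * k with hE
  have hcE : (c0 : ℝ) ≤ E := by rw [hE]; nlinarith [mul_nonneg (by linarith : (0:ℝ) ≤ c0) (by linarith : (0:ℝ) ≤ k), hD, hD1]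
  have hA2 : (10000 * E + 22 * t + 1) * (r + 1) ≤ φ ^ 4 * n := by
    have : (10000 * E + 22 * t + 1 : ℝ) = 10000 * c0 * k * k + 22 * t + 1 := by rw [hE]; ring
    rw [this]; exact hcon
  have hφ2 : 0 < φ ^ 2 := by positivity
  have hφ2' : φ ^ 2 ≤ 1 := by nlinarith
  have hn0 : 0 < n := by
    have h1 : 0 < φ ^ 4 * n := lt_of_lt_of_le (by positivity) hA2
    have h2 : 0 < φ ^ 4 := by positivity
    exact (pos_iff_pos_of_mul_pos h1).1 h2
  set C : ℝ := 64 * D * (2 * r + 1) / φ ^ 2 with hCdef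
  have hC : 0 < C := by positivity
  have hCφ : C * φ ^ 2 = 64 * D * (2 * r + 1) := by
    rw [hCdef]; field_simp
  have h43 : φ ^ 4 * n ≤ φ ^ 3 * n := by
    have : φ ^ 4 ≤ φ ^ 3 := pow_le_pow_of_le_one hφ.le hφ1 (by norm_num)
    nlinarith
  have hC1 : C ≤ φ * n / 64 := by
    have h1 : C * φ ^ 2 ≤ (φ * n / 64) * φ ^ 2 := by
      rw [hCφ]
      have h2 : 64 * (64 * D * (2 * r + 1)) ≤ φ ^ 3 * n := by
        refine le_trans ?_ (hA2.trans h43)
        nlinarith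
      have h3 : (φ * n / 64) * φ ^ 2 = φ ^ 3 * n / 64 := by ring
      rw [h3]; linarith
    exact le_of_mul_le_mul_right h1 hφ2
  have hC2 : (C + φ * n / 8) / φ ≤ n / 64 + n / 8 := by
    rw [div_le_iff₀ hφ]
    nlinarith
  have hφn : φ * n ≤ n := by nlinarith
  have hmain := S.main hφ hφ1 hC hexp hm hq (by
    change φ * n / 8 + 2 * ((C + φ * n / 8) / φ) + 2 * C ≤ n / 2
    nlinarith) (by
    change (C + φ * n / 8) / φ < n - φ * n / 8
    nlinarith)
  change φ * q ≤ 2 * (2 * C + 2 * k * ((4 * k * r + 1) * c0) +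
      (1 + n * (k * (2 * r + 1)) / C) * c0) at hmain
  have h5 : n * (k * (2 * r + 1)) / C * c0 = n * φ ^ 2 / 64 := by
    rw [hCdef, hD]
    have h1 : (c0 : ℝ) ≠ 0 := by positivity
    have h2 : (k : ℝ) ≠ 0 := by positivity
    have h3 : (2 * (r : ℝ) + 1) ≠ 0 := by positivity
    field_simp
  have h6 : φ * (φ * n / 8 - 2 * t) ≤ φ * q := mul_le_mul_of_nonneg_left hq' hφ.le
  have h7 : φ * (φ * n / 8 - 2 * t) ≤ 4 * C + 4 * k * ((4 * k * r + 1) * c0) + 2 * c0 +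
      n * φ ^ 2 / 32 := by
    nlinarith
  -- multiply by φ^2
  have h8 : 3 / 32 * (φ ^ 4 * n) ≤ 4 * (C * φ ^ 2) +
      φ ^ 2 * (4 * k * ((4 * k * r + 1) * c0) + 2 * c0 + 2 * t) := by
    have h9 : φ * (φ * n / 8 - 2 * t) * φ ^ 2 ≤ (4 * C + 4 * k * ((4 * k * r + 1) * c0) + 2 * c0 +
      n * φ ^ 2 / 32) * φ ^ 2 := mul_le_mul_of_nonneg_right h7 hφ2.le
    have h10 : φ * t * φ ^ 2 ≤ 1 * t * φ ^ 2 := by
      apply mul_le_mul_of_nonneg_right _ hφ2.le
      exact mul_le_mul_of_nonneg_right hφ1 ht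
    nlinarith
  have h11 : φ ^ 2 * (4 * k * ((4 * k * r + 1) * c0) + 2 * c0 + 2 * t) ≤
      1 * ((16 * E + 2 * E + 2 * t) * (r + 1)) := by
    apply mul_le_mul hφ2' _ (by positivity) (by norm_num)
    have h12 : 4 * (k : ℝ) * ((4 * k * r + 1) * c0) = 16 * E * r + 4 * D := by
      rw [hE, hD]; ring
    rw [h12]
    nlinarith
  rw [hCφ] at h8
  nlinarith

end Pool.Agent.Helper60.RedBw
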