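import Pool.Agent.Helper60.RedBw.Final

/-!
Sanity checks: for a nonempty finite graph `∇_r(G)` is a genuine maximum, and `G` itself is an
`r`-shallow minor of `G`.
-/

namespace Pool.Agent.Helper60.RedBw

theorem shallow_self (r : ℕ) {V : Type} (G : SimpleGraph V) : IsShallowMinor r G G := by
  refine ⟨fun v => {v}, ?_, ?_, ?_⟩
  · intro w w' h
    rw [Set.disjoint_singleton]; exact h
  · intro w
    refine ⟨w, rfl, ?_⟩
    intro x hx
    rw [Set.mem_singleton_iff] at hx
    subst hx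
    exact ⟨SimpleGraph.Walk.nil, by simp, by intro y hy; simpa using hy⟩
  · intro w w' h
    exact ⟨w, rfl, w', rfl, h⟩

theorem shallow_card {r m : ℕ} {V : Type} [Fintype V] {G : SimpleGraph V}
    {H : SimpleGraph (Fin m)} (h : IsShallowMinor r H G) : m ≤ Fintype.card V := by
  obtain ⟨B, disj, cen, -⟩ := h
  have h1 : ∀ w, ∃ x, x ∈ B w := fun w => by
    obtain ⟨c, hc, -⟩ := cen w
    exact ⟨c, hc⟩
  choose g hg using h1
  have := Fintype.card_le_of_injective g (by
    intro w w' he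
    by_contra hne
    have h2 := hg w
    have h3 := hg w'
    rw [← he] at h3
    exact Set.disjoint_left.1 (disj w w' hne) h2 h3)
  simpa using this

theorem nabla_isGreatest (r : ℕ) {V : Type} [Fintype V] [Nonempty V] (G : SimpleGraph V) :
    IsGreatest {d : ℝ | ∃ (m : ℕ) (H : SimpleGraph (Fin m)), 0 < m ∧ IsShallowMinor r H G ∧
      d = (H.edgeSet.ncard : ℝ) / (m : ℝ)} (nabla r G) := by
  have hfin : {d : ℝ | ∃ (m : ℕ) (H : SimpleGraph (Fin m)), 0 < m ∧ IsShallowMinor r H G ∧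
      d = (H.edgeSet.ncard : ℝ) / (m : ℝ)}.Finite := by
    apply (Set.finite_range (fun x : (Σ m : Fin (Fintype.card V + 1), SimpleGraph (Fin m)) =>
      ((x.2.edgeSet.ncard : ℝ) / ((x.1 : ℕ) : ℝ)))).subset
    rintro d ⟨m, H, hm, hH, rfl⟩
    have := shallow_card hH
    exact ⟨⟨⟨m, by omega⟩, H⟩, rfl⟩
  have hne : {d : ℝ | ∃ (m : ℕ) (H : SimpleGraph (Fin m)), 0 < m ∧ IsShallowMinor r H G ∧
      d = (H.edgeSet.ncard : ℝ) / (m : ℝ)}.Nonempty := by
    refine ⟨_, 1, ⊥, one_pos, ?_, rfl⟩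
    obtain ⟨v⟩ := (inferInstance : Nonempty V)
    refine ⟨fun _ => {v}, ?_, ?_, ?_⟩
    · intro w w' h
      exact absurd (Subsingleton.elim w w') h
    · intro w
      refine ⟨v, rfl, ?_⟩
      intro x hx
      rw [Set.mem_singleton_iff] at hx
      subst hx
      exact ⟨SimpleGraph.Walk.nil, by simp, by intro y hy; simpa using hy⟩
    · intro w w' h
      exact absurd h (by simp)
  exact ⟨hne.csSup_mem hfin, fun d hd => le_csSup hfin.bddAbove hd⟩

end Pool.Agent.Helper60.RedBw
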