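import Pool.Agent.Helper60.RedBw.NoExp

/-!
Stages of a reduction sequence of a graph, seen as partitions of its vertex set.
-/

namespace Pool.Agent.Helper60.RedBw

open Classical

set_option linter.unusedSectionVars false

variable {V : Type} [Fintype V] {G : SimpleGraph V}

/-- the trigraph `T` on the parts `X` is the quotient trigraph of `G` by the map `π` -/
structure Represents (G : SimpleGraph V) {X : Type} (T : Trigraph X) (π : V → X) : Prop where
  surj : Function.Surjective π
  black : ∀ a b, a ≠ b → (T.black.Adj a b ↔ ∀ x y, π x = a → π y = b → G.Adj x y)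
  absent : ∀ a b, a ≠ b → (¬ T.Adj a b ↔ ∀ x y, π x = a → π y = b → ¬ G.Adj x y)

theorem Represents.start (G : SimpleGraph V) : Represents G (Trigraph.ofGraph G) id := by
  refine ⟨Function.surjective_id, ?_, ?_⟩
  · intro a b _
    constructor
    · rintro h x y rfl rfl; exact h
    · intro h; exact h a b rfl rfl
  · intro a b _
    constructor
    · rintro h x y rfl rfl h1
      exact h (Or.inl h1)
    · rintro h (h1 | h1)
      · exact h a b rfl rfl h1
      · exact h1

theorem Trigraph.Adj.symm {X : Type} {T : Trigraph X} {a b : X} (h : T.Adj a b) : T.Adj b a := by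
  rcases h with h | h
  · exact Or.inl h.symm
  · exact Or.inr h.symm

theorem Represents.contract {X Y : Type} {T : Trigraph X} {T' : Trigraph Y} {π : V → X} {u v : X}
    {ρ : X → Y} (h : Represents G T π) (hc : IsContraction T T' u v ρ) :
    Represents G T' (ρ ∘ π) := by
  -- fibres of the new map
  have hfib : ∀ x : V, ρ (π x) = ρ u ↔ π x = u ∨ π x = v := by
    intro x
    rw [hc.fiber]
    have := hc.ne
    tauto
  have hfib' : ∀ (x : V) (a : X), a ≠ u → a ≠ v → (ρ (π x) = ρ a ↔ π x = a) := by
    intro x a h1 h2
    rw [hc.fiber]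
    tauto
  have key : ∀ b, b ≠ u → b ≠ v →
      ((T'.black.Adj (ρ u) (ρ b) ↔ ∀ x y, (ρ ∘ π) x = ρ u → (ρ ∘ π) y = ρ b → G.Adj x y) ∧
      (¬ T'.Adj (ρ u) (ρ b) ↔ ∀ x y, (ρ ∘ π) x = ρ u → (ρ ∘ π) y = ρ b → ¬ G.Adj x y)) := by
    intro b h1 h2
    constructor
    · rw [hc.black_new b h1 h2, h.black u b h1.symm, h.black v b h2.symm]
      simp only [Function.comp_apply]
      constructor
      · rintro ⟨h3, h4⟩ x y hx hy
        rw [hfib] at hx
        rw [hfib' y b h1 h2] at hy
        rcases hx with hx | hx
        · exact h3 x y hx hy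
        · exact h4 x y hx hy
      · intro h3
        constructor
        · intro x y hx hy
          exact h3 x y (by rw [hx]) (by rw [hy])
        · intro x y hx hy
          exact h3 x y ((hfib x).2 (Or.inr hx)) (by rw [hy])
    · rw [hc.absent_new b h1 h2, h.absent u b h1.symm, h.absent v b h2.symm]
      simp only [Function.comp_apply]
      constructor
      · rintro ⟨h3, h4⟩ x y hx hy
        rw [hfib] at hx
        rw [hfib' y b h1 h2] at hy
        rcases hx with hx | hx
        · exact h3 x y hx hy
        · exact h4 x y hx hy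
      · intro h3
        constructor
        · intro x y hx hy
          exact h3 x y (by rw [hx]) (by rw [hy])
        · intro x y hx hy
          exact h3 x y ((hfib x).2 (Or.inr hx)) (by rw [hy])
  have huv : ρ u = ρ v := (hc.fiber u v).2 (Or.inr (Or.inl ⟨rfl, rfl⟩))
  refine ⟨hc.surj.comp h.surj, ?_, ?_⟩
  · intro a' b' hab
    obtain ⟨a, rfl⟩ := hc.surj a'
    obtain ⟨b, rfl⟩ := hc.surj b'
    by_cases ha : a = u ∨ a = v
    · have ha' : ρ a = ρ u := by rcases ha with rfl | rfl <;> [rfl; exact huv.symm]
      have hb : ¬ (b = u ∨ b = v) := by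
        intro hb
        apply hab
        rw [ha']
        rcases hb with rfl | rfl
        · rfl
        · exact huv
      rw [not_or] at hb
      rw [ha']
      exact (key b hb.1 hb.2).1
    · rw [not_or] at ha
      by_cases hb : b = u ∨ b = v
      · have hb' : ρ b = ρ u := by rcases hb with rfl | rfl <;> [rfl; exact huv.symm]
        rw [hb', SimpleGraph.adj_comm, (key a ha.1 ha.2).1]
        constructor
        · intro h1 x y hx hy; exact (h1 y x hy hx).symm
        · intro h1 x y hx hy; exact (h1 y x hy hx).symm
      · rw [not_or] at hb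
        have hab' : a ≠ b := fun h => hab (by rw [h])
        rw [hc.black_old a b ha.1 ha.2 hb.1 hb.2, h.black a b hab']
        simp only [Function.comp_apply]
        constructor
        · intro h1 x y hx hy
          exact h1 x y ((hfib' x a ha.1 ha.2).1 hx) ((hfib' y b hb.1 hb.2).1 hy)
        · intro h1 x y hx hy
          exact h1 x y (by rw [hx]) (by rw [hy])
  · intro a' b' hab
    obtain ⟨a, rfl⟩ := hc.surj a'
    obtain ⟨b, rfl⟩ := hc.surj b'
    by_cases ha : a = u ∨ a = v
    · have ha' : ρ a = ρ u := by rcases ha with rfl | rfl <;> [rfl; exact huv.symm]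
      have hb : ¬ (b = u ∨ b = v) := by
        intro hb
        apply hab
        rw [ha']
        rcases hb with rfl | rfl
        · rfl
        · exact huv
      rw [not_or] at hb
      rw [ha']
      exact (key b hb.1 hb.2).2
    · rw [not_or] at ha
      by_cases hb : b = u ∨ b = v
      · have hb' : ρ b = ρ u := by rcases hb with rfl | rfl <;> [rfl; exact huv.symm]
        have hsymm : T'.Adj (ρ a) (ρ u) ↔ T'.Adj (ρ u) (ρ a) := ⟨fun h => h.symm, fun h => h.symm⟩
        rw [hb', hsymm, (key a ha.1 ha.2).2]
        constructor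
        · intro h1 x y hx hy hxy; exact h1 y x hy hx hxy.symm
        · intro h1 x y hx hy hxy; exact h1 y x hy hx hxy.symm
      · rw [not_or] at hb
        have hab' : a ≠ b := fun h => hab (by rw [h])
        have h2 : T'.Adj (ρ a) (ρ b) ↔ T.Adj a b := by
          unfold Trigraph.Adj
          rw [hc.black_old a b ha.1 ha.2 hb.1 hb.2, hc.red_old a b ha.1 ha.2 hb.1 hb.2]
        rw [h2, h.absent a b hab']
        simp only [Function.comp_apply]
        constructor
        · intro h1 x y hx hy
          exact h1 x y ((hfib' x a ha.1 ha.2).1 hx) ((hfib' y b hb.1 hb.2).1 hy)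
        · intro h1 x y hx hy
          exact h1 x y (by rw [hx]) (by rw [hy])

/-- the size of the part `a` -/
noncomputable def fsz {X : Type} (π : V → X) (a : X) : ℕ :=
  (Finset.univ.filter (fun x => π x = a)).card

/-- the union of the large parts -/
def LU {X : Type} (t : ℕ) (π : V → X) : Set V := {x | t ≤ fsz π (π x)}

/-- no two sets of `t` vertices are completely joined -/
def FreeKtt (G : SimpleGraph V) (t : ℕ) : Prop :=
  ∀ A B : Finset V, t ≤ A.card → t ≤ B.card → ¬ ∀ a ∈ A, ∀ b ∈ B, G.Adj a b

theorem bandwidth_spec {X : Type} [Fintype X] (R : SimpleGraph X) {k : ℕ}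
    (h : bandwidth R ≤ k) : ∃ pos : X → ℤ, Function.Injective pos ∧
      (∀ a, 0 ≤ pos a ∧ pos a < Fintype.card X) ∧ ∀ a b, R.Adj a b → |pos a - pos b| ≤ k := by
  have hne : {b : ℕ | ∃ ℓ : X ≃ Fin (Fintype.card X),
    ∀ u v, R.Adj u v → |((ℓ u : ℕ) : ℤ) - ((ℓ v : ℕ) : ℤ)| ≤ b}.Nonempty := by
    refine ⟨Fintype.card X, Fintype.equivFin X, ?_⟩
    intro u v _
    have h1 := (Fintype.equivFin X u).2
    have h2 := (Fintype.equivFin X v).2
    rw [abs_le]
    constructor <;> omega
  obtain ⟨ℓ, hℓ⟩ := Nat.sInf_mem hne
  refine ⟨fun a => ((ℓ a : ℕ) : ℤ), ?_, ?_, ?_⟩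
  · intro a b hab
    have hab' : ((ℓ a : ℕ) : ℤ) = ((ℓ b : ℕ) : ℤ) := hab
    have : (ℓ a : ℕ) = ℓ b := by exact_mod_cast hab'
    exact ℓ.injective (Fin.ext this)
  · intro a
    have := (ℓ a).2
    change (0 : ℤ) ≤ ((ℓ a : ℕ) : ℤ) ∧ ((ℓ a : ℕ) : ℤ) < Fintype.card X
    omega
  · intro a b hab
    have h1 := hℓ a b hab
    have h2 : ((bandwidth R : ℕ) : ℤ) ≤ k := by exact_mod_cast h
    exact le_trans h1 h2

/-- a stage of the sequence gives the static data -/
theorem Represents.static {X W : Type} [Fintype X] [Fintype W] {T : Trigraph X} {π : V → X}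
    (h : Represents G T π) {t k r : ℕ} (hfree : FreeKtt G t) (hbw : bandwidth T.red ≤ k)
    {H : SimpleGraph W} {B : W → Set V} (disj : ∀ w w', w ≠ w' → Disjoint (B w) (B w'))
    (cen : ∀ w, ∃ c ∈ B w, ∀ x ∈ B w, ∃ q : G.Walk c x, q.length ≤ r ∧
      ∀ y ∈ q.support, y ∈ B w)
    (adj : ∀ w w', H.Adj w w' → ∃ x ∈ B w, ∃ y ∈ B w', G.Adj x y) :
    ∃ p : V → ℤ, Static G H B (LU t π) p k r ((2 * k + 2) * t) (Fintype.card X) := by
  obtain ⟨pos, hinj, hpos, hred⟩ := bandwidth_spec T.red hbw
  refine ⟨fun x => pos (π x), disj, cen, adj, ?_, ?_, fun x => (hpos _).1, fun x => (hpos _).2⟩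
  · intro x hx y hy hxy
    by_cases hπ : π x = π y
    · rw [hπ, sub_self, abs_zero]; positivity
    · have hadj : T.Adj (π x) (π y) := by
        by_contra hcon
        exact (h.absent _ _ hπ).1 hcon x y rfl rfl hxy
      rcases hadj with hb | hr
      · exfalso
        rw [h.black _ _ hπ] at hb
        refine hfree _ _ hx hy ?_
        intro a ha b hb'
        rw [Finset.mem_filter] at ha hb'
        exact hb a b ha.2 hb'.2
      · exact hred _ _ hr
  · intro j
    by_cases hj : ∃ x0 ∈ LU t π, pos (π x0) = j
    · obtain ⟨x0, hx0, hx0j⟩ := hj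
      set D := Finset.univ.filter (fun z => ∀ x, π x = π x0 → G.Adj x z) with hD
      have hDcard : D.card ≤ t := by
        by_contra hcon
        refine hfree _ D hx0 (by omega) ?_
        intro a ha b hb
        rw [Finset.mem_filter] at ha
        rw [hD, Finset.mem_filter] at hb
        exact hb.2 a ha.2
      set E : ℤ → Finset V := fun i => Finset.univ.filter (fun z => z ∉ LU t π ∧ pos (π z) = i)
        with hE
      have hEcard : ∀ i, (E i).card ≤ t := by
        intro i
        by_cases hi : (E i).Nonempty
        · obtain ⟨z0, hz0⟩ := hi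
          have hz0' := hz0
          simp only [hE, Finset.mem_filter, Finset.mem_univ, true_and] at hz0'
          have hsub : E i ⊆ Finset.univ.filter (fun x => π x = π z0) := by
            intro z hz
            simp only [hE, Finset.mem_filter, Finset.mem_univ, true_and] at hz ⊢
            apply hinj
            rw [hz.2, hz0'.2]
          have h1 := Finset.card_le_card hsub
          have h2 : ¬ t ≤ fsz π (π z0) := hz0'.1
          unfold fsz at h2
          omega
        · rw [Finset.not_nonempty_iff_eq_empty] at hi
          rw [hi]; simp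
      have hsub : Finset.univ.filter (fun z => z ∉ LU t π ∧ ∃ x ∈ LU t π, pos (π x) = j ∧
          G.Adj x z) ⊆ D ∪ (Finset.Icc (j - k) (j + k)).biUnion E := by
        intro z hz
        rw [Finset.mem_filter] at hz
        obtain ⟨-, hzU, x, hx, hxj, hxz⟩ := hz
        have hπx : π x = π x0 := hinj (by rw [hxj, hx0j])
        have hne : π x ≠ π z := by
          intro he
          apply hzU
          have : t ≤ fsz π (π x) := hx
          rw [he] at this
          exact this
        have hadj : T.Adj (π x) (π z) := by
          by_contra hcon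
          exact (h.absent _ _ hne).1 hcon x z rfl rfl hxz
        rw [Finset.mem_union]
        rcases hadj with hb | hr
        · left
          rw [h.black _ _ hne] at hb
          rw [hD, Finset.mem_filter]
          refine ⟨Finset.mem_univ _, fun y hy => ?_⟩
          exact hb y z (by rw [hy, hπx]) rfl
        · right
          have h1 := hred _ _ hr
          rw [hxj, abs_le] at h1
          rw [Finset.mem_biUnion]
          refine ⟨pos (π z), ?_, ?_⟩
          · rw [Finset.mem_Icc]; constructor <;> linarith [h1.1, h1.2]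
          · rw [hE]
            simp only [Finset.mem_filter, Finset.mem_univ, true_and, and_true]
            exact hzU
      refine (Finset.card_le_card hsub).trans ((Finset.card_union_le _ _).trans ?_)
      have h3 : ((Finset.Icc (j - k) (j + k)).biUnion E).card ≤ (2 * k + 1) * t := by
        refine (Finset.card_biUnion_le_card_mul _ _ _ (fun i _ => hEcard i)).trans ?_
        apply Nat.mul_le_mul_right
        rw [Int.card_Icc]
        omega
      calc D.card + ((Finset.Icc (j - k) (j + k)).biUnion E).card ≤ t + (2 * k + 1) * t := by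
            omega
        _ = (2 * k + 2) * t := by ring
    · have : Finset.univ.filter (fun z => z ∉ LU t π ∧ ∃ x ∈ LU t π, pos (π x) = j ∧
          G.Adj x z) = ∅ := by
        rw [Finset.filter_eq_empty_iff]
        rintro z - ⟨-, x, hx, hxj, -⟩
        exact hj ⟨x, hx, hxj⟩
      rw [this]
      simp

end Pool.Agent.Helper60.RedBw
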