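import Pool.Agent.Helper60.RedBw.Defs

/-!
The static part of the argument: a graph `G` with a set `U` of vertices (the union of the large
parts), a position map `p` which is `k`-Lipschitz on `U`, and few outside neighbours per position.
-/

namespace Pool.Agent.Helper60.RedBw

open Classical

set_option linter.unusedSectionVars false

variable {V W : Type} [Fintype V] [Fintype W]

/-- the data of the static lemma -/
structure Static (G : SimpleGraph V) (H : SimpleGraph W) (B : W → Set V) (U : Set V)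
    (p : V → ℤ) (k r c0 : ℕ) (m : ℤ) : Prop where
  disj : ∀ w w', w ≠ w' → Disjoint (B w) (B w')
  cen : ∀ w, ∃ c ∈ B w, ∀ x ∈ B w, ∃ q : G.Walk c x, q.length ≤ r ∧ ∀ y ∈ q.support, y ∈ B w
  adj : ∀ w w', H.Adj w w' → ∃ x ∈ B w, ∃ y ∈ B w', G.Adj x y
  lip : ∀ x ∈ U, ∀ y ∈ U, G.Adj x y → |p x - p y| ≤ k
  out : ∀ j, (Finset.univ.filter (fun z => z ∉ U ∧ ∃ x ∈ U, p x = j ∧ G.Adj x z)).card ≤ c0
  pos0 : ∀ x, 0 ≤ p x
  posm : ∀ x, p x < m

/-- branch sets inside `U` -/
noncomputable def PP (B : W → Set V) (U : Set V) : Finset W :=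
  Finset.univ.filter (fun w => B w ⊆ U)

/-- branch sets inside `U` meeting the window `[j, j+k)` -/
noncomputable def Wd (B : W → Set V) (U : Set V) (p : V → ℤ) (k : ℕ) (j : ℤ) : Finset W :=
  Finset.univ.filter (fun w => B w ⊆ U ∧ ∃ x ∈ B w, j ≤ p x ∧ p x < j + k)

/-- branch sets inside `U` left of `j` -/
noncomputable def Lf (B : W → Set V) (U : Set V) (p : V → ℤ) (j : ℤ) : Finset W :=
  Finset.univ.filter (fun w => B w ⊆ U ∧ ∀ x ∈ B w, p x < j)

/-- branch sets inside `U` right of the window `[j, j+k)` -/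
noncomputable def Rt (B : W → Set V) (U : Set V) (p : V → ℤ) (k : ℕ) (j : ℤ) : Finset W :=
  Finset.univ.filter (fun w => B w ⊆ U ∧ ∀ x ∈ B w, j + k ≤ p x)

/-- the vertex boundary -/
noncomputable def Nb (H : SimpleGraph W) (S : Finset W) : Finset W :=
  Finset.univ.filter (fun w => w ∉ S ∧ ∃ v ∈ S, H.Adj v w)

/-- outside neighbours at position `j` -/
noncomputable def Out (G : SimpleGraph V) (U : Set V) (p : V → ℤ) (j : ℤ) : Finset V :=
  Finset.univ.filter (fun z => z ∉ U ∧ ∃ x ∈ U, p x = j ∧ G.Adj x z)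

theorem mem_PP {B : W → Set V} {U : Set V} {w : W} : w ∈ PP B U ↔ B w ⊆ U := by
  simp [PP]

theorem mem_Wd {B : W → Set V} {U : Set V} {p : V → ℤ} {k : ℕ} {j : ℤ} {w : W} :
    w ∈ Wd B U p k j ↔ B w ⊆ U ∧ ∃ x ∈ B w, j ≤ p x ∧ p x < j + k := by
  simp [Wd]

theorem mem_Lf {B : W → Set V} {U : Set V} {p : V → ℤ} {j : ℤ} {w : W} :
    w ∈ Lf B U p j ↔ B w ⊆ U ∧ ∀ x ∈ B w, p x < j := by
  simp [Lf]

theorem mem_Rt {B : W → Set V} {U : Set V} {p : V → ℤ} {k : ℕ} {j : ℤ} {w : W} :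
    w ∈ Rt B U p k j ↔ B w ⊆ U ∧ ∀ x ∈ B w, j + k ≤ p x := by
  simp [Rt]

theorem mem_Nb {H : SimpleGraph W} {S : Finset W} {w : W} :
    w ∈ Nb H S ↔ w ∉ S ∧ ∃ v ∈ S, H.Adj v w := by
  simp [Nb]

theorem mem_Out {G : SimpleGraph V} {U : Set V} {p : V → ℤ} {j : ℤ} {z : V} :
    z ∈ Out G U p j ↔ z ∉ U ∧ ∃ x ∈ U, p x = j ∧ G.Adj x z := by
  simp [Out]

section walks

variable {G : SimpleGraph V} {U : Set V} {p : V → ℤ} {k : ℕ}

theorem walk_lip (lip : ∀ x ∈ U, ∀ y ∈ U, G.Adj x y → |p x - p y| ≤ k) {x y : V}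
    (q : G.Walk x y) (hq : ∀ z ∈ q.support, z ∈ U) : |p x - p y| ≤ k * q.length := by
  induction q with
  | nil => simp
  | @cons a b c hab q ih =>
    have h1 : a ∈ U := hq a (by simp)
    have h2 : b ∈ U := hq b (by simp)
    have h3 := ih (fun z hz => hq z (by simp [hz]))
    have h4 := lip a h1 b h2 hab
    rw [SimpleGraph.Walk.length_cons]
    push_cast
    have h5 : |p a - p c| ≤ |p a - p b| + |p b - p c| := abs_sub_le _ _ _
    nlinarith

/-- first exit from `U` along a walk -/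
theorem walk_exit (lip : ∀ x ∈ U, ∀ y ∈ U, G.Adj x y → |p x - p y| ≤ k) {S : Set V} {x y : V}
    (q : G.Walk x y) (hq : ∀ z ∈ q.support, z ∈ S) (hx : x ∈ U) (hy : y ∉ U) :
    ∃ x' ∈ U, ∃ z ∈ S, z ∉ U ∧ G.Adj x' z ∧ |p x - p x'| ≤ k * ((q.length : ℤ) - 1) := by
  induction q with
  | nil => exact absurd hx hy
  | @cons a b c hab q ih =>
    rw [SimpleGraph.Walk.length_cons]
    push_cast
    by_cases hb : b ∈ U
    · obtain ⟨x', h1, z, h2, h3, h4, h5⟩ := ih (fun z hz => hq z (by simp [hz])) hb hy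
      refine ⟨x', h1, z, h2, h3, h4, ?_⟩
      have h6 := lip a hx b hb hab
      have h7 : |p a - p x'| ≤ |p a - p b| + |p b - p x'| := abs_sub_le _ _ _
      nlinarith
    · refine ⟨a, hx, b, hq b (by simp), hb, hab, ?_⟩
      have : (0 : ℤ) ≤ k * (q.length : ℤ) := by positivity
      simpa using this

/-- a walk from a middle position that avoids the two windows exits `U` in the middle -/
theorem walk_mid (lip : ∀ x ∈ U, ∀ y ∈ U, G.Adj x y → |p x - p y| ≤ k) {S : Set V} {j1 j2 : ℤ}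
    (hS : ∀ x ∈ S, x ∈ U → ¬ (j1 ≤ p x ∧ p x < j1 + k) ∧ ¬ (j2 ≤ p x ∧ p x < j2 + k)) {x y : V}
    (q : G.Walk x y) (hq : ∀ z ∈ q.support, z ∈ S) (hx : x ∈ U) (hy : y ∉ U)
    (hx1 : j1 + k ≤ p x) (hx2 : p x < j2) :
    ∃ x' ∈ U, ∃ z ∈ S, z ∉ U ∧ G.Adj x' z ∧ j1 + k ≤ p x' ∧ p x' < j2 := by
  induction q with
  | nil => exact absurd hx hy
  | @cons a b c hab q ih =>
    by_cases hb : b ∈ U
    · have h6 := lip a hx b hb hab
      have h7 := hS b (hq b (by simp)) hb
      rw [abs_le] at h6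
      exact ih (fun z hz => hq z (by simp [hz])) hb hy (by omega) (by omega)
    · exact ⟨a, hx, b, hq b (by simp), hb, hab, hx1, hx2⟩

end walks

section main

variable {G : SimpleGraph V} {H : SimpleGraph W} {B : W → Set V} {U : Set V}
    {p : V → ℤ} {k r c0 : ℕ} {m : ℤ}

/-- any two vertices of a branch set are joined inside it by a walk of length at most `2r` -/
theorem Static.walk2 (S : Static G H B U p k r c0 m) {w : W} {x y : V} (hx : x ∈ B w)
    (hy : y ∈ B w) : ∃ q : G.Walk x y, q.length ≤ 2 * r ∧ ∀ z ∈ q.support, z ∈ B w := by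
  obtain ⟨c, hc, h⟩ := S.cen w
  obtain ⟨q1, a1, b1⟩ := h x hx
  obtain ⟨q2, a2, b2⟩ := h y hy
  refine ⟨q1.reverse.append q2, ?_, ?_⟩
  · rw [SimpleGraph.Walk.length_append, SimpleGraph.Walk.length_reverse]; omega
  · intro z hz
    rw [SimpleGraph.Walk.mem_support_append_iff] at hz
    rcases hz with hz | hz
    · rw [SimpleGraph.Walk.support_reverse, List.mem_reverse] at hz
      exact b1 z hz
    · exact b2 z hz

/-- discrete continuity along walks inside `U` avoiding a window -/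
theorem walk_side (lip : ∀ x ∈ U, ∀ y ∈ U, G.Adj x y → |p x - p y| ≤ k) {S : Set V} {j : ℤ}
    (hSU : S ⊆ U) (hS : ∀ x ∈ S, ¬ (j ≤ p x ∧ p x < j + k)) {x y : V}
    (q : G.Walk x y) (hq : ∀ z ∈ q.support, z ∈ S) : (p x < j → p y < j) ∧
      (j + k ≤ p x → j + k ≤ p y) := by
  induction q with
  | nil => exact ⟨id, id⟩
  | @cons a b c hab q ih =>
    have ha := hq a (by simp)
    have hb := hq b (by simp)
    have h1 := lip a (hSU ha) b (hSU hb) hab
    rw [abs_le] at h1
    have h2 := hS a ha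
    have h3 := hS b hb
    obtain ⟨h4, h5⟩ := ih (fun z hz => hq z (by simp [hz]))
    constructor
    · intro h; exact h4 (by omega)
    · intro h; exact h5 (by omega)

theorem Static.tri (S : Static G H B U p k r c0 m) (j : ℤ) {w : W} (hw : B w ⊆ U) :
    w ∈ Lf B U p j ∨ w ∈ Wd B U p k j ∨ w ∈ Rt B U p k j := by
  rw [mem_Lf, mem_Wd, mem_Rt]
  by_cases h : ∃ x ∈ B w, j ≤ p x ∧ p x < j + k
  · right; left; exact ⟨hw, h⟩
  · have h' : ∀ x ∈ B w, ¬ (j ≤ p x ∧ p x < j + k) := fun x hx hxx => h ⟨x, hx, hxx⟩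
    obtain ⟨c, hc, hcc⟩ := S.cen w
    by_cases h1 : p c < j
    · left
      refine ⟨hw, fun x hx => ?_⟩
      obtain ⟨q, -, hq⟩ := hcc x hx
      exact (walk_side S.lip hw h' q hq).1 h1
    · right; right
      refine ⟨hw, fun x hx => ?_⟩
      obtain ⟨q, -, hq⟩ := hcc x hx
      have := h' c hc
      exact (walk_side S.lip hw h' q hq).2 (by omega)

theorem Static.no_LR (S : Static G H B U p k r c0 m) {j : ℤ} {v w : W}
    (hv : v ∈ Lf B U p j) (hw : w ∈ Rt B U p k j) : ¬ H.Adj v w := by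
  intro h
  rw [mem_Lf] at hv
  rw [mem_Rt] at hw
  obtain ⟨x, hx, y, hy, hxy⟩ := S.adj v w h
  have h1 := hv.2 x hx
  have h2 := hw.2 y hy
  have h3 := S.lip x (hv.1 hx) y (hw.1 hy) hxy
  rw [abs_le] at h3
  omega

theorem Static.nb_L (S : Static G H B U p k r c0 m) (j : ℤ) :
    Nb H (Lf B U p j) ⊆ Wd B U p k j ∪ (PP B U)ᶜ := by
  intro w hw
  rw [mem_Nb] at hw
  rw [Finset.mem_union, Finset.mem_compl, mem_PP]
  by_cases hP : B w ⊆ U
  · left
    rcases S.tri j hP with h | h | h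
    · exact absurd h hw.1
    · exact h
    · obtain ⟨v, hv, hvw⟩ := hw.2
      exact absurd hvw (S.no_LR hv h)
  · right; exact hP

theorem Static.nb_R (S : Static G H B U p k r c0 m) (j : ℤ) :
    Nb H (Rt B U p k j) ⊆ Wd B U p k j ∪ (PP B U)ᶜ := by
  intro w hw
  rw [mem_Nb] at hw
  rw [Finset.mem_union, Finset.mem_compl, mem_PP]
  by_cases hP : B w ⊆ U
  · left
    rcases S.tri j hP with h | h | h
    · obtain ⟨v, hv, hvw⟩ := hw.2
      exact absurd hvw.symm (S.no_LR h hv)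
    · exact h
    · exact absurd h hw.1
  · right; exact hP

theorem Static.disj_LR (S : Static G H B U p k r c0 m) (j : ℤ) :
    Disjoint (Lf B U p j) (Rt B U p k j) := by
  rw [Finset.disjoint_left]
  intro w h1 h2
  rw [mem_Lf] at h1
  rw [mem_Rt] at h2
  obtain ⟨c, hc, -⟩ := S.cen w
  have := h1.2 c hc
  have := h2.2 c hc
  omega

/-- total size of windows -/
theorem Static.sum_W (S : Static G H B U p k r c0 m) (J : Finset ℤ) :
    ∑ j ∈ J, (Wd B U p k j).card ≤ Fintype.card W * (k * (2 * r + 1)) := by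
  have h1 : ∑ j ∈ J, (Wd B U p k j).card =
      ∑ w : W, (J.filter (fun j => w ∈ Wd B U p k j)).card := by
    have h2 : ∀ j, (Wd B U p k j).card = ∑ w : W, if w ∈ Wd B U p k j then 1 else 0 := by
      intro j
      rw [Finset.sum_ite_mem, Finset.univ_inter, Finset.sum_const, smul_eq_mul, mul_one]
    rw [Finset.sum_congr rfl (fun j _ => h2 j), Finset.sum_comm]
    apply Finset.sum_congr rfl
    intro w _
    rw [Finset.card_filter]
  rw [h1]
  have h3 : ∀ w : W, (J.filter (fun j => w ∈ Wd B U p k j)).card ≤ k * (2 * r + 1) := by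
    intro w
    obtain ⟨c, hc, hcc⟩ := S.cen w
    have h4 : J.filter (fun j => w ∈ Wd B U p k j) ⊆
        Finset.Ioc (p c - r * k - k) (p c + r * k) := by
      intro j hj
      rw [Finset.mem_filter, mem_Wd] at hj
      obtain ⟨-, hU, x, hx, hx1, hx2⟩ := hj
      obtain ⟨q, hq1, hq2⟩ := hcc x hx
      have h5 := walk_lip S.lip q (fun z hz => hU (hq2 z hz))
      have h6 : (k : ℤ) * q.length ≤ r * k := by
        have : (q.length : ℤ) ≤ r := by exact_mod_cast hq1
        nlinarith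
      rw [abs_le] at h5
      rw [Finset.mem_Ioc]
      constructor <;> linarith [h5.1, h5.2]
    refine (Finset.card_le_card h4).trans ?_
    rw [Int.card_Ioc]
    have : (p c + r * k - (p c - r * k - k)) = ((k * (2 * r + 1) : ℕ) : ℤ) := by push_cast; ring
    rw [this, Int.toNat_natCast]
  calc ∑ w : W, (J.filter (fun j => w ∈ Wd B U p k j)).card ≤ ∑ w : W, k * (2 * r + 1) :=
        Finset.sum_le_sum (fun w _ => h3 w)
    _ = Fintype.card W * (k * (2 * r + 1)) := by
        rw [Finset.sum_const, Finset.card_univ, smul_eq_mul]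

/-- a set of branch sets, each containing a vertex of `Z`, has at most `|Z|` elements -/
theorem card_le_of_meet (disj : ∀ w w', w ≠ w' → Disjoint (B w) (B w')) {A : Finset W}
    {Z : Finset V} (h : ∀ w ∈ A, ∃ z ∈ Z, z ∈ B w) : A.card ≤ Z.card := by
  rcases A.eq_empty_or_nonempty with rfl | ⟨w0, hw0⟩
  · simp
  obtain ⟨z0, -, -⟩ := h w0 hw0
  haveI : Nonempty V := ⟨z0⟩
  choose! g hg using h
  apply Finset.card_le_card_of_injOn g (fun w hw => (hg w hw).1)
  intro w hw w' hw' he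
  by_contra hne
  have h1 := (hg w hw).2
  have h2 := (hg w' hw').2
  rw [← he] at h2
  exact Set.disjoint_left.1 (disj w w' hne) h1 h2

/-- branch sets not inside `U` which meet `U` at position `j` -/
noncomputable def Mt (B : W → Set V) (U : Set V) (p : V → ℤ) (j : ℤ) : Finset W :=
  Finset.univ.filter (fun w => ¬ B w ⊆ U ∧ ∃ x ∈ B w, x ∈ U ∧ p x = j)

theorem mem_Mt {j : ℤ} {w : W} :
    w ∈ Mt B U p j ↔ ¬ B w ⊆ U ∧ ∃ x ∈ B w, x ∈ U ∧ p x = j := by
  simp [Mt]

theorem Static.card_Out (S : Static G H B U p k r c0 m) (J : Finset ℤ) :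
    (J.biUnion (Out G U p)).card ≤ J.card * c0 := by
  refine Finset.card_biUnion_le_card_mul _ _ _ (fun j _ => ?_)
  exact S.out j

theorem Static.card_Mt (S : Static G H B U p k r c0 m) (j : ℤ) :
    (Mt B U p j).card ≤ (4 * k * r + 1) * c0 := by
  have h1 : (Mt B U p j).card ≤
      ((Finset.Icc (j - 2 * k * r) (j + 2 * k * r)).biUnion (Out G U p)).card := by
    apply card_le_of_meet S.disj
    intro w hw
    rw [mem_Mt] at hw
    obtain ⟨hU, x, hx, hxU, hxj⟩ := hw
    rw [Set.not_subset] at hU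
    obtain ⟨y, hy, hyU⟩ := hU
    obtain ⟨q, hq1, hq2⟩ := S.walk2 hx hy
    obtain ⟨x', h1, z, h2, h3, h4, h5⟩ := walk_exit S.lip q hq2 hxU hyU
    refine ⟨z, ?_, h2⟩
    rw [Finset.mem_biUnion]
    refine ⟨p x', ?_, ?_⟩
    · have h6 : (k : ℤ) * ((q.length : ℤ) - 1) ≤ 2 * k * r := by
        have : (q.length : ℤ) ≤ 2 * r := by exact_mod_cast hq1
        nlinarith
      rw [abs_le] at h5
      rw [Finset.mem_Icc]
      constructor <;> linarith [h5.1, h5.2]
    · rw [mem_Out]
      exact ⟨h3, x', h1, rfl, h4⟩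
  refine h1.trans ((S.card_Out _).trans ?_)
  rw [Int.card_Icc]
  have : (j + 2 * k * r + 1 - (j - 2 * k * r)) = ((4 * k * r + 1 : ℕ) : ℤ) := by
    push_cast; ring
  rw [this, Int.toNat_natCast]

/-- the neighbourhood of the middle part -/
theorem Static.nb_M (S : Static G H B U p k r c0 m) {j1 j2 : ℤ} (hj : j1 ≤ j2) :
    (Nb H (Rt B U p k j1 ∩ Lf B U p j2)).card ≤
      (Wd B U p k j1).card + (Wd B U p k j2).card + 2 * k * ((4 * k * r + 1) * c0) +
        (j2 - j1).toNat * c0 := by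
  set A1 := Wd B U p k j1 ∪ Wd B U p k j2 with hA1
  set A2 := ((Finset.Ico j1 (j1 + k)) ∪ (Finset.Ico j2 (j2 + k))).biUnion (Mt B U p) with hA2
  set Z := (Finset.Ico (j1 + k) j2).biUnion (Out G U p) with hZ
  set A3 : Finset W := Finset.univ.filter (fun w => ∃ z ∈ Z, z ∈ B w) with hA3
  have hsub : Nb H (Rt B U p k j1 ∩ Lf B U p j2) ⊆ A1 ∪ A2 ∪ A3 := by
    intro w hw
    rw [mem_Nb] at hw
    obtain ⟨hwM, v, hv, hvw⟩ := hw
    rw [Finset.mem_inter, mem_Rt, mem_Lf] at hv
    obtain ⟨⟨hvU, hv1⟩, -, hv2⟩ := hv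
    obtain ⟨x, hx, y, hy, hxy⟩ := S.adj v w hvw
    have hx1 := hv1 x hx
    have hx2 := hv2 x hx
    rw [Finset.mem_union, Finset.mem_union]
    by_cases hwU : B w ⊆ U
    · -- w in P
      left; left
      have h3 := S.lip x (hvU hx) y (hwU hy) hxy
      rw [abs_le] at h3
      rw [hA1, Finset.mem_union]
      rcases S.tri j1 hwU with h | h | h
      · rw [mem_Lf] at h
        have := h.2 y hy
        omega
      · left; exact h
      · rcases S.tri j2 hwU with h' | h' | h'
        · exact absurd (Finset.mem_inter.2 ⟨h, h'⟩) hwM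
        · right; exact h'
        · rw [mem_Rt] at h'
          have := h'.2 y hy
          omega
    · by_cases hmeet : ∃ a ∈ B w, a ∈ U ∧ ((j1 ≤ p a ∧ p a < j1 + k) ∨ (j2 ≤ p a ∧ p a < j2 + k))
      · left; right
        obtain ⟨a, ha, haU, hap⟩ := hmeet
        rw [hA2, Finset.mem_biUnion]
        refine ⟨p a, ?_, ?_⟩
        · rw [Finset.mem_union, Finset.mem_Ico, Finset.mem_Ico]; exact hap
        · rw [mem_Mt]; exact ⟨hwU, a, ha, haU, rfl⟩
      · right
        have hno : ∀ a ∈ B w, a ∈ U → ¬ (j1 ≤ p a ∧ p a < j1 + k) ∧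
            ¬ (j2 ≤ p a ∧ p a < j2 + k) := by
          intro a ha haU
          constructor
          · intro h; exact hmeet ⟨a, ha, haU, Or.inl h⟩
          · intro h; exact hmeet ⟨a, ha, haU, Or.inr h⟩
        rw [hA3, Finset.mem_filter]
        refine ⟨Finset.mem_univ _, ?_⟩
        by_cases hyU : y ∈ U
        · have h3 := S.lip x (hvU hx) y hyU hxy
          rw [abs_le] at h3
          have h4 := hno y hy hyU
          rw [Set.not_subset] at hwU
          obtain ⟨b, hb, hbU⟩ := hwU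
          obtain ⟨q, -, hq2⟩ := S.walk2 hy hb
          obtain ⟨x', h5, z, h6, h7, h8, h9, h10⟩ :=
            walk_mid (j1 := j1) (j2 := j2) S.lip hno q hq2 hyU hbU (by omega) (by omega)
          refine ⟨z, ?_, h6⟩
          rw [hZ, Finset.mem_biUnion]
          refine ⟨p x', ?_, ?_⟩
          · rw [Finset.mem_Ico]; exact ⟨h9, h10⟩
          · rw [mem_Out]; exact ⟨h7, x', h5, rfl, h8⟩
        · refine ⟨y, ?_, hy⟩
          rw [hZ, Finset.mem_biUnion]
          refine ⟨p x, ?_, ?_⟩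
          · rw [Finset.mem_Ico]; exact ⟨hx1, hx2⟩
          · rw [mem_Out]; exact ⟨hyU, x, hvU hx, rfl, hxy⟩
  have c1 : A1.card ≤ (Wd B U p k j1).card + (Wd B U p k j2).card := Finset.card_union_le _ _
  have c2 : A2.card ≤ 2 * k * ((4 * k * r + 1) * c0) := by
    refine (Finset.card_biUnion_le_card_mul _ _ _ (fun j _ => S.card_Mt j)).trans ?_
    apply Nat.mul_le_mul_right
    refine (Finset.card_union_le _ _).trans ?_
    rw [Int.card_Ico, Int.card_Ico]
    omega
  have c3 : A3.card ≤ (j2 - j1).toNat * c0 := by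
    have h1 : A3.card ≤ Z.card := by
      apply card_le_of_meet S.disj
      intro w hw
      rw [hA3, Finset.mem_filter] at hw
      exact hw.2
    refine h1.trans ((S.card_Out _).trans ?_)
    apply Nat.mul_le_mul_right
    rw [Int.card_Ico]
    omega
  calc (Nb H (Rt B U p k j1 ∩ Lf B U p j2)).card ≤ (A1 ∪ A2 ∪ A3).card :=
        Finset.card_le_card hsub
    _ ≤ A1.card + A2.card + A3.card := by
        have h1 := Finset.card_union_le (A1 ∪ A2) A3
        have h2 := Finset.card_union_le A1 A2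
        omega
    _ ≤ _ := by omega

/-- the complement of `M ∪ N(M)` expands into `N(M)` -/
theorem compl_expand {φ : ℝ} (hφ : 0 < φ) (hφ1 : φ ≤ 1)
    (hexp : ∀ A : Finset W, 2 * A.card ≤ Fintype.card W → φ * A.card ≤ ((Nb H A).card : ℝ))
    {M Q : Finset W} (hM : Fintype.card W ≤ 2 * M.card) (hQ : Disjoint Q M) :
    φ * Q.card ≤ 2 * ((Nb H M).card : ℝ) := by
  set S := (M ∪ Nb H M)ᶜ with hS
  have hsub : Nb H S ⊆ Nb H M := by
    intro w hw
    rw [mem_Nb] at hw
    obtain ⟨h1, v, hv, hvw⟩ := hw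
    rw [hS, Finset.mem_compl, not_not, Finset.mem_union] at h1
    rcases h1 with h1 | h1
    · exfalso
      rw [hS, Finset.mem_compl, Finset.mem_union, not_or] at hv
      apply hv.2
      rw [mem_Nb]
      exact ⟨hv.1, w, h1, hvw.symm⟩
    · exact h1
  have hd : Disjoint M (Nb H M) := by
    rw [Finset.disjoint_left]
    intro w h1 h2
    rw [mem_Nb] at h2
    exact h2.1 h1
  have hc : S.card + (M.card + (Nb H M).card) = Fintype.card W := by
    rw [← Finset.card_union_of_disjoint hd, hS, Finset.card_compl]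
    have := Finset.card_le_univ (M ∪ Nb H M)
    omega
  have h1 := hexp S (by omega)
  have h2 : ((Nb H S).card : ℝ) ≤ (Nb H M).card := by exact_mod_cast Finset.card_le_card hsub
  have h3 : Q.card + M.card ≤ Fintype.card W := by
    rw [← Finset.card_union_of_disjoint hQ]
    exact Finset.card_le_univ _
  have h4 : (Q.card : ℝ) ≤ S.card + (Nb H M).card := by
    have : Q.card ≤ S.card + (Nb H M).card := by omega
    exact_mod_cast this
  have h5 : (0 : ℝ) ≤ (Nb H M).card := by positivity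
  nlinarith

end main

end Pool.Agent.Helper60.RedBw
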