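import Pool.Agent.Helper60.RedBw.Stage

/-!
The right moment in the reduction sequence, and the no-expander theorem for shallow minors.
-/

namespace Pool.Agent.Helper60.RedBw

open Classical

set_option linter.unusedSectionVars false

variable {V : Type} [Fintype V] {G : SimpleGraph V}

theorem ReducesWithin.bw {b : ℕ} {X : Type} [Fintype X] {T : Trigraph X}
    (h : ReducesWithin b X T) : bandwidth T.red ≤ b := by
  cases h with
  | last _ _ hb => exact hb
  | step _ _ _ _ _ hb _ _ => exact hb

/-- growth of the union of the large parts under one contraction -/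
theorem growth {X Y W : Type} [Fintype W] {T : Trigraph X} {T' : Trigraph Y} {π : V → X}
    {u v : X} {ρ : X → Y} (hc : IsContraction T T' u v ρ) {t : ℕ} {B : W → Set V}
    (disj : ∀ w w', w ≠ w' → Disjoint (B w) (B w')) :
    (PP B (LU t (ρ ∘ π))).card ≤ (PP B (LU t π)).card + 2 * t := by
  set F : X → Finset V := fun a => Finset.univ.filter (fun x => π x = a ∧ ¬ t ≤ fsz π a) with hF
  have hFcard : ∀ a, (F a).card ≤ t := by
    intro a
    by_cases ha : t ≤ fsz π a
    · have : F a = ∅ := by
        rw [hF]
        simp only [Finset.filter_eq_empty_iff]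
        rintro x - ⟨-, h⟩
        exact h ha
      rw [this]; simp
    · have hsub : F a ⊆ Finset.univ.filter (fun x => π x = a) := by
        intro x hx
        simp only [hF, Finset.mem_filter, Finset.mem_univ, true_and] at hx ⊢
        exact hx.1
      have := Finset.card_le_card hsub
      unfold fsz at ha
      omega
  have hdiff : (PP B (LU t (ρ ∘ π)) \ PP B (LU t π)).card ≤ (F u ∪ F v).card := by
    apply card_le_of_meet disj
    intro w hw
    rw [Finset.mem_sdiff, mem_PP, mem_PP, Set.not_subset] at hw
    obtain ⟨h1, x, hx, hxU⟩ := hw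
    have h2 : t ≤ fsz (ρ ∘ π) (ρ (π x)) := h1 hx
    have h3 : ¬ t ≤ fsz π (π x) := hxU
    refine ⟨x, ?_, hx⟩
    rw [Finset.mem_union]
    simp only [hF, Finset.mem_filter, Finset.mem_univ, true_and]
    by_cases hu : π x = u
    · left; exact ⟨hu, hu ▸ h3⟩
    · by_cases hv : π x = v
      · right; exact ⟨hv, hv ▸ h3⟩
      · exfalso
        apply h3
        have h4 : fsz (ρ ∘ π) (ρ (π x)) = fsz π (π x) := by
          unfold fsz
          congr 1
          ext y
          simp only [Finset.mem_filter, Finset.mem_univ, true_and, Function.comp_apply]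
          rw [hc.fiber]
          tauto
        rw [← h4]; exact h2
  have h5 := Finset.card_union_le (F u) (F v)
  have h6 := hFcard u
  have h7 := hFcard v
  have h8 : PP B (LU t (ρ ∘ π)) ⊆ PP B (LU t π) ∪ (PP B (LU t (ρ ∘ π)) \ PP B (LU t π)) := by
    intro w hw
    rw [Finset.mem_union, Finset.mem_sdiff]
    by_cases h : w ∈ PP B (LU t π)
    · exact Or.inl h
    · exact Or.inr ⟨hw, h⟩
  have h9 := Finset.card_le_card h8
  have h10 := Finset.card_union_le (PP B (LU t π)) (PP B (LU t (ρ ∘ π)) \ PP B (LU t π))
  omega

theorem exists_time {W : Type} [Fintype W] {t k : ℕ} {B : W → Set V}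
    (disj : ∀ w w', w ≠ w' → Disjoint (B w) (B w')) (hV : t ≤ Fintype.card V) {θ : ℝ}
    (hθ : θ ≤ Fintype.card W) {X : Type} [iX : Fintype X] {T : Trigraph X}
    (hT : ReducesWithin k X T) :
    ∀ π : V → X, Represents G T π → ((PP B (LU t π)).card : ℝ) < θ →
      ∃ (X' : Type) (_ : Fintype X') (T' : Trigraph X') (π' : V → X'), Represents G T' π' ∧
        bandwidth T'.red ≤ k ∧ θ ≤ ((PP B (LU t π')).card : ℝ) ∧
        ((PP B (LU t π')).card : ℝ) < θ + 2 * t := by
  induction hT with
  | @last X iX T hX hb =>
    intro π hπ hlt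
    exfalso
    have hall : ∀ x : V, x ∈ LU t π := by
      intro x
      change t ≤ fsz π (π x)
      have : fsz π (π x) = Fintype.card V := by
        unfold fsz
        rw [Finset.filter_true_of_mem, Finset.card_univ]
        intro y _
        exact Fintype.card_le_one_iff.1 hX _ _
      rw [this]; exact hV
    have hPP : PP B (LU t π) = Finset.univ := by
      ext w
      rw [mem_PP]
      simp only [Finset.mem_univ, iff_true]
      intro x _
      exact hall x
    rw [hPP, Finset.card_univ] at hlt
    linarith
  | @step X Y iX iY T T' u v ρ hb hc hr ih =>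
    intro π hπ hlt
    have h1 := hπ.contract hc
    by_cases h2 : ((PP B (LU t (ρ ∘ π))).card : ℝ) < θ
    · exact ih (ρ ∘ π) h1 h2
    · refine ⟨Y, iY, T', ρ ∘ π, h1, hr.bw, not_lt.1 h2, ?_⟩
      have h3 : ((PP B (LU t (ρ ∘ π))).card : ℝ) ≤ (PP B (LU t π)).card + 2 * t := by
        exact_mod_cast growth hc disj
      linarith

/-- a shallow minor that is an expander has few vertices -/
theorem no_expander {W : Type} [Fintype W] {t k r : ℕ} (ht : 2 ≤ t) (hk : 1 ≤ k)
    (hfree : FreeKtt G t) (hG : ReducesWithin k V (Trigraph.ofGraph G))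
    {H : SimpleGraph W} (hH : IsShallowMinor r H G) {φ : ℝ} (hφ : 0 < φ) (hφ1 : φ ≤ 1)
    (hexp : Expands H φ) :
    φ ^ 4 * Fintype.card W < constA k t ((2 * k + 2) * t) * (r + 1) := by
  obtain ⟨B, disj, cen, adj⟩ := hH
  set c0 := (2 * k + 2) * t with hc0
  have hc0' : 1 ≤ c0 := by rw [hc0]; nlinarith
  have hWV : Fintype.card W ≤ Fintype.card V := by
    have h1 : ∀ w, ∃ x, x ∈ B w := fun w => by
      obtain ⟨c, hc, -⟩ := cen w
      exact ⟨c, hc⟩
    choose g hg using h1
    apply Fintype.card_le_of_injective g
    intro w w' he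
    by_contra hne
    have h2 := hg w
    have h3 := hg w'
    rw [← he] at h3
    exact Set.disjoint_left.1 (disj w w' hne) h2 h3
  have hA : (22 * t + 1 : ℝ) ≤ constA k t c0 := by
    have : 22 * t + 1 ≤ constA k t c0 := by unfold constA; omega
    exact_mod_cast this
  have hr : (0 : ℝ) ≤ r := by positivity
  have ht0 : (0 : ℝ) ≤ t := by positivity
  have hφ4 : φ ^ 4 ≤ 1 := pow_le_one₀ hφ.le hφ1
  rcases Nat.lt_or_ge (Fintype.card V) t with hV | hV
  · -- very small graph
    have h1 : (Fintype.card W : ℝ) ≤ t := by
      have : Fintype.card W ≤ t := by omega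
      exact_mod_cast this
    have h2 : (0 : ℝ) ≤ Fintype.card W := by positivity
    nlinarith
  · rcases Nat.eq_zero_or_pos (Fintype.card W) with hW | hW
    · rw [hW]
      have : (0 : ℝ) < constA k t c0 * (r + 1) := by nlinarith
      simpa using this
    have hW' : (0 : ℝ) < Fintype.card W := by exact_mod_cast hW
    set θ : ℝ := Fintype.card W - φ * Fintype.card W / 8 with hθ
    have hθ1 : θ ≤ Fintype.card W := by
      have : 0 < φ * Fintype.card W := by positivity
      linarith
    have hstart : ((PP B (LU t (id : V → V))).card : ℝ) < θ := by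
      have h1 : PP B (LU t (id : V → V)) = ∅ := by
        rw [Finset.eq_empty_iff_forall_notMem]
        intro w hw
        rw [mem_PP] at hw
        obtain ⟨c, hc, -⟩ := cen w
        have h2 : t ≤ fsz (id : V → V) c := hw hc
        unfold fsz at h2
        have h3 : (Finset.univ.filter (fun x : V => id x = c)).card = 1 := by
          rw [Finset.card_eq_one]
          exact ⟨c, by ext x; simp⟩
        omega
      rw [h1]
      simp only [Finset.card_empty, Nat.cast_zero]
      nlinarith
    obtain ⟨X, iX, T, π, h1, h2, h3, h4⟩ :=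
      exists_time (G := G) disj hV hθ1 hG id (Represents.start G) hstart
    obtain ⟨p, S⟩ := h1.static hfree h2 disj cen adj
    have hcompl : (((PP B (LU t π))ᶜ : Finset W).card : ℝ) =
        Fintype.card W - ((PP B (LU t π)).card : ℝ) := by
      rw [Finset.card_compl, Nat.cast_sub (Finset.card_le_univ _)]
    refine S.no_expander hφ hφ1 hk hc0' hexp (by positivity) ?_ ?_
    · rw [hcompl]; linarith
    · rw [hcompl]; linarith

end Pool.Agent.Helper60.RedBw
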